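import Mathlib

/-!
The inequality for the gradient of one irreducible form at its integral zeros: definition.
-/

namespace Pool.Agent.Lib.MP_17a322_nt.GR

open MvPolynomial

/-- The inequality for the gradient `∇H` of an irreducible form `H` in `n + 1` variables with integer coefficients:
for every `ε > 0`, at all primitive integral zeros `p` of `H` outside a proper closed subset of `H = 0`,
`|∇H(p)| ≤ C |p| ^ (n + ε) gcd(∇H(p))` (`‖ ‖` is the maximum of the absolute values of the coordinates). -/
def GradInt : Prop :=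
  ∀ (n e : ℕ) (H : MvPolynomial (Fin (n + 1)) ℤ) (ε : ℝ), H.IsHomogeneous e →
    Irreducible (map (Int.castRingHom ℚ) H) → 0 < ε →
    ∃ (G : MvPolynomial (Fin (n + 1)) ℤ) (C : ℝ), (∃ e', G.IsHomogeneous e') ∧
      ¬ map (Int.castRingHom ℚ) H ∣ map (Int.castRingHom ℚ) G ∧
      ∀ p : Fin (n + 1) → ℤ, Finset.univ.gcd p = 1 → eval p H = 0 → eval p G ≠ 0 →
        ‖fun j => eval p (pderiv j H)‖ ≤
          C * ‖p‖ ^ (n + ε) * ((Finset.univ.gcd fun j => eval p (pderiv j H) : ℤ) : ℝ)

end Pool.Agent.Lib.MP_17a322_nt.GR
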