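import Mathlib

/-!
Points of the moment curve in general position with respect to a matrix.
-/

namespace Pool.Agent.Lib.MP_17a322_nt.GR

/-- The points of the moment curve span. -/
private theorem P3_span {K : Type*} [Field K] [Infinite K] {m r : ℕ} (A : Fin (m + 1) → Fin r → K)
    (S : Fin r → Fin (m + 1)) (hS : (Matrix.of fun i j => A (S i) j).det ≠ 0) :
    ∃ x : Fin r → K,
      (Matrix.of fun i j => ∑ a : Fin (m + 1), x i ^ (a : ℕ) * A a j).det ≠ 0 := by
  set v : K → Fin r → K := fun x j => ∑ a : Fin (m + 1), x ^ (a : ℕ) * A a j with hv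
  have hspan : Submodule.span K (Set.range v) = ⊤ := by
    by_contra hne
    obtain ⟨f, hf0, hf⟩ := Submodule.exists_le_ker_of_lt_top _ (lt_top_iff_ne_top.2 hne)
    have hfv : ∀ x, f (v x) = 0 := fun x => hf (Submodule.subset_span ⟨x, rfl⟩)
    have hfA : ∀ a, f (A a) = 0 := by
      set p : Polynomial K :=
        ∑ a : Fin (m + 1), Polynomial.C (f (A a)) * Polynomial.X ^ (a : ℕ) with hp
      have hp0 : p = 0 := by
        refine Polynomial.funext fun x => ?_
        have h1 : v x = ∑ a : Fin (m + 1), x ^ (a : ℕ) • A a := by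
          funext j
          simp [hv, Finset.sum_apply]
        rw [Polynomial.eval_zero, hp, Polynomial.eval_finsetSum, ← hfv x, h1, map_sum]
        refine Finset.sum_congr rfl fun a _ => ?_
        rw [map_smul, smul_eq_mul, Polynomial.eval_mul, Polynomial.eval_C, Polynomial.eval_pow,
          Polynomial.eval_X, mul_comm]
      intro a
      have h2 : p.coeff (a : ℕ) = 0 := by rw [hp0, Polynomial.coeff_zero]
      rw [hp, Polynomial.finsetSum_coeff, Finset.sum_eq_single a] at h2
      · rwa [Polynomial.coeff_C_mul, Polynomial.coeff_X_pow, if_pos rfl, mul_one] at h2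
      · intro b _ hb
        rw [Polynomial.coeff_C_mul, Polynomial.coeff_X_pow, if_neg, mul_zero]
        intro h
        exact hb (Fin.ext h.symm)
      · intro h
        exact absurd (Finset.mem_univ a) h
    apply hf0
    have hc : (Matrix.of fun i j => A (S i) j).mulVec (fun j => f (Pi.single j 1)) = 0 := by
      funext i
      have h3 : f (A (S i)) = ∑ j, A (S i) j * f (Pi.single j 1) := by
        conv_lhs => rw [← Finset.univ_sum_single (A (S i))]
        rw [map_sum]
        refine Finset.sum_congr rfl fun j _ => ?_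
        rw [← smul_eq_mul, ← map_smul]
        congr 1
        rw [← Pi.single_smul, smul_eq_mul, mul_one]
      rw [Matrix.mulVec, dotProduct, Pi.zero_apply, ← hfA (S i), h3]
      rfl
    have hc0 := Matrix.eq_zero_of_mulVec_eq_zero hS hc
    refine LinearMap.pi_ext' fun j => ?_
    ext
    simpa using congrFun hc0 j
  have hfin : Module.finrank K (Submodule.span K (Set.range v)) = r := by
    rw [hspan, finrank_top, Module.finrank_fin_fun]
  obtain ⟨f, hf1, -, hf3⟩ := Submodule.exists_fun_fin_finrank_span_eq K (Set.range v)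
  choose x hx using hf1
  refine ⟨fun i => x (Fin.cast hfin.symm i), ?_⟩
  have h1 : LinearIndependent K (fun i : Fin r => f (Fin.cast hfin.symm i)) :=
    hf3.comp _ (Fin.cast_injective _)
  have h2 : (Matrix.of fun (i : Fin r) (j : Fin r) =>
      ∑ a : Fin (m + 1), x (Fin.cast hfin.symm i) ^ (a : ℕ) * A a j).row =
      fun i : Fin r => f (Fin.cast hfin.symm i) := by
    funext i
    rw [← hx]
    rfl
  have h3 := Matrix.linearIndependent_rows_iff_isUnit.1 (h2 ▸ h1)
  rw [Matrix.isUnit_iff_isUnit_det] at h3
  exact h3.ne_zero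

/-- There are distinct points of the moment curve which are in general position with respect to a matrix of
rank `r`. -/
theorem exists_t {K : Type*} [Field K] [Infinite K] {m r s : ℕ} (A : Fin (m + 1) → Fin r → K)
    (S : Fin r → Fin (m + 1)) (hS : (Matrix.of fun i j => A (S i) j).det ≠ 0) :
    ∃ t : Fin s → K, Function.Injective t ∧ ∀ J : Fin r → Fin s, Function.Injective J →
      (Matrix.of fun i j => ∑ a : Fin (m + 1), t (J i) ^ (a : ℕ) * A a j).det ≠ 0 := by
  classical
  obtain ⟨x, hx⟩ := P3_span A S hS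
  set P : (Fin r → Fin s) → MvPolynomial (Fin s) K := fun J =>
    (Matrix.of fun i j => ∑ a : Fin (m + 1),
      MvPolynomial.X (J i) ^ (a : ℕ) * MvPolynomial.C (A a j)).det with hP
  have hPe : ∀ J (t : Fin s → K), MvPolynomial.eval t (P J) =
      (Matrix.of fun i j => ∑ a : Fin (m + 1), t (J i) ^ (a : ℕ) * A a j).det := by
    intro J t
    rw [hP, RingHom.map_det]
    congr 1
    ext i j
    simp
  have hP0 : ∀ J : Fin r → Fin s, Function.Injective J → P J ≠ 0 := by
    intro J hJ h0
    have h1 := hPe J (Function.extend J x 0)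
    rw [h0, map_zero] at h1
    apply hx
    rw [h1]
    congr 1
    ext i j
    simp [hJ.extend_apply]
  set Q : MvPolynomial (Fin s) K :=
    (∏ J ∈ Finset.univ.filter fun J : Fin r → Fin s => Function.Injective J, P J) *
      ∏ p ∈ Finset.univ.filter fun p : Fin s × Fin s => p.1 ≠ p.2,
        (MvPolynomial.X p.1 - MvPolynomial.X p.2) with hQ
  have hQ0 : Q ≠ 0 := by
    refine mul_ne_zero (Finset.prod_ne_zero_iff.2 fun J hJ => ?_)
      (Finset.prod_ne_zero_iff.2 fun p hp => ?_)
    · exact hP0 J (Finset.mem_filter.1 hJ).2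
    · intro h
      exact (Finset.mem_filter.1 hp).2 (MvPolynomial.X_injective (sub_eq_zero.1 h))
  obtain ⟨t, ht⟩ : ∃ t, MvPolynomial.eval t Q ≠ 0 := by
    by_contra hc
    push Not at hc
    exact hQ0 (MvPolynomial.funext fun t => by rw [hc t, map_zero])
  rw [hQ, map_mul, map_prod, map_prod] at ht
  have h1 := Finset.prod_ne_zero_iff.1 (left_ne_zero_of_mul ht)
  have h2 := Finset.prod_ne_zero_iff.1 (right_ne_zero_of_mul ht)
  refine ⟨t, fun i j hij => ?_, fun J hJ => ?_⟩
  · by_contra hne
    apply h2 (i, j) (Finset.mem_filter.2 ⟨Finset.mem_univ _, hne⟩)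
    rw [map_sub, MvPolynomial.eval_X, MvPolynomial.eval_X, hij, sub_self]
  · rw [← hPe]
    exact h1 J (Finset.mem_filter.2 ⟨Finset.mem_univ _, hJ⟩)

end Pool.Agent.Lib.MP_17a322_nt.GR
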