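import Pool.Agent.Lib.MP_17a322_nt.GR.P2c

/-!
Minors of `s` general vectors in the row space of a matrix: heights.
-/

universe u

namespace Pool.Agent.Lib.MP_17a322_nt.GR

open MvPolynomial Height NumberField
open Pool.Agent.Lib.MP_17a322_nt.EQ

variable {K : Type u} [Field K] [NumberField K]

/-- The product formula. -/
theorem psum_abs {x : K} (hx : x ≠ 0) : psum (fun v : Pl K => Real.log (av v x)) = 0 := by
  have h1 : (fun _ : Unit => x) ≠ 0 := fun h => hx (congrFun h ())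
  have h2 := hl_psum_sup h1
  rw [logHeight_eq_zero_of_subsingleton] at h2
  rw [← h2]
  congr 1
  funext v
  rw [ciSup_const]

/-- The global inequality. -/
theorem height_ineq {m r s : ℕ} (hs : r < s) (t : Fin s → K) (ht : Function.Injective t) :
    ∃ C : ℝ, ∀ (A : Fin (m + 1) → Fin r → K), (∃ S, om A S ≠ 0) →
      (∀ J : Fin r ↪ Fin s, pj t A J ≠ 0) → ∃ I : Fin (r + 1) ↪ Fin s,
        logHeight (om A) ≤ logHeight (fun k : Fin (r + 1) => pj t A (I ∘ k.succAbove)) +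
          (((r + 1) * m : ℕ) : ℝ) / ((s - r : ℕ) : ℝ) * logHeight (om A) + C := by
  classical
  obtain ⟨c, h0, h1, h2⟩ := local_ineq (m := m) (r := r) t ht
  set NI : ℝ := ((Fintype.card (Fin (r + 1) ↪ Fin s) : ℕ) : ℝ) with hNI
  set NJ : ℝ := ((Fintype.card (Fin r ↪ Fin s) : ℕ) : ℝ) with hNJ
  have hd : ((s - r : ℕ) : ℝ) ≠ 0 := by
    have : 0 < s - r := Nat.sub_pos_of_lt hs
    exact_mod_cast this.ne'
  have hIJ : NI = ((s - r : ℕ) : ℝ) * NJ := by
    rw [hNI, hNJ, Fintype.card_embedding_eq, Fintype.card_embedding_eq]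
    simp only [Fintype.card_fin]
    rw [Nat.descFactorial_succ]
    push_cast
    ring
  have hne : Nonempty (Fin (r + 1) ↪ Fin s) := ⟨Fin.castLEEmb hs⟩
  have hNI0 : 0 < NI := by
    rw [hNI]
    exact_mod_cast Fintype.card_pos
  refine ⟨psum c / NI, fun A hA hJ => ?_⟩
  have hOm : om A ≠ 0 := by
    obtain ⟨S, hS⟩ := hA
    exact fun h => hS (congrFun h S)
  have hpI : ∀ I : Fin (r + 1) ↪ Fin s, (fun k : Fin (r + 1) => pj t A (I ∘ k.succAbove)) ≠ 0 := fun I h =>
    hJ ((0 : Fin (r + 1)).succAboveEmb.trans I) (congrFun h 0)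
  have f1 : FS fun v : Pl K => Real.log (⨆ S, av v (om A S)) := hl_fs_sup hOm
  have f2 : ∀ I : Fin (r + 1) ↪ Fin s, FS fun v : Pl K =>
      Real.log (⨆ k : Fin (r + 1), av v (pj t A (I ∘ k.succAbove))) := fun I => hl_fs_sup (hpI I)
  have f3 : ∀ J : Fin r ↪ Fin s, FS fun v : Pl K => Real.log (av v (pj t A J)) := fun J => hl_fs_abs (hJ J)
  have fsub : ∀ F G : Pl K → ℝ, FS F → FS G → FS fun v => F v - G v := fun F G hF hG =>
    hs_fs_of2 hF hG _ fun w h1 h2 => by simp [h1, h2]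
  have psub : ∀ F G : Pl K → ℝ, FS F → FS G → psum (fun v => F v - G v) = psum F - psum G := fun F G hF hG => by
    have e1 : (fun v : Pl K => F v - G v) = fun v => F v + (-1) * G v := by
      funext v; ring
    rw [e1, hs_add hF (hs_fs_mul _ hG), hs_mul]
    ring
  have e1 : psum (fun v : Pl K => ∑ I : Fin (r + 1) ↪ Fin s, (Real.log (⨆ S, av v (om A S)) -
      Real.log (⨆ k : Fin (r + 1), av v (pj t A (I ∘ k.succAbove))))) =
      ∑ I : Fin (r + 1) ↪ Fin s, (logHeight (om A) -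
        logHeight (fun k : Fin (r + 1) => pj t A (I ∘ k.succAbove))) := by
    rw [hs_sum _ _ fun I _ => fsub _ _ f1 (f2 I)]
    refine Finset.sum_congr rfl fun I _ => ?_
    rw [psub _ _ f1 (f2 I), hl_psum_sup hOm, hl_psum_sup (hpI I)]
  have e2 : psum (fun v : Pl K => ((r + 1) * m : ℕ) * ∑ J : Fin r ↪ Fin s,
      (Real.log (⨆ S, av v (om A S)) - Real.log (av v (pj t A J))) + c v) =
      ((r + 1) * m : ℕ) * (NJ * logHeight (om A)) + psum c := by
    rw [hs_add (hs_fs_mul _ (hs_fs_sum _ _ fun J _ => fsub _ _ f1 (f3 J))) h1, hs_mul,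
      hs_sum _ _ fun J _ => fsub _ _ f1 (f3 J)]
    have e6 : ∀ J : Fin r ↪ Fin s, psum (fun v : Pl K => Real.log (⨆ S, av v (om A S)) -
        Real.log (av v (pj t A J))) = logHeight (om A) := fun J => by
      rw [psub _ _ f1 (f3 J), hl_psum_sup hOm, psum_abs (hJ J), sub_zero]
    rw [Finset.sum_congr rfl fun J _ => e6 J, Finset.sum_const, Finset.card_univ, nsmul_eq_mul]
  have e3 := hs_mono (hs_fs_sum _ _ fun I _ => fsub _ _ f1 (f2 I))
    (hs_fs_add (hs_fs_mul _ (hs_fs_sum _ _ fun J _ => fsub _ _ f1 (f3 J))) h1) (h2 A hA hJ)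
  rw [e1, e2] at e3
  by_contra hcon
  push Not at hcon
  have e4 : ∑ I : Fin (r + 1) ↪ Fin s, ((((r + 1) * m : ℕ) : ℝ) / ((s - r : ℕ) : ℝ) * logHeight (om A) +
      psum c / NI) < ∑ I : Fin (r + 1) ↪ Fin s, (logHeight (om A) -
        logHeight (fun k : Fin (r + 1) => pj t A (I ∘ k.succAbove))) :=
    Finset.sum_lt_sum_of_nonempty Finset.univ_nonempty fun I _ => by
      have := hcon I
      linarith
  rw [Finset.sum_const, Finset.card_univ, nsmul_eq_mul, ← hNI] at e4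
  have e5 : NI * ((((r + 1) * m : ℕ) : ℝ) / ((s - r : ℕ) : ℝ) * logHeight (om A) + psum c / NI) =
      ((r + 1) * m : ℕ) * (NJ * logHeight (om A)) + psum c := by
    rw [mul_add, mul_div_cancel₀ _ hNI0.ne', hIJ]
    field_simp
  rw [e5] at e4
  exact absurd e3 (not_le.2 e4)

end Pool.Agent.Lib.MP_17a322_nt.GR
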