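import Pool.Agent.Lib.MP_17a322_nt.GR.P1
import Pool.Agent.Lib.MP_17a322_nt.GR.P3
import Pool.Agent.Lib.MP_17a322_nt.GR.P4a

/-!
The inequality for Jacobian matrices of any number of forms follows from the case of `r + 1` forms in `r`
variables.
-/

universe u

namespace Pool.Agent.Lib.MP_17a322_nt.GR

open MvPolynomial Height NumberField
open Pool.Agent.Lib.MP_17a322_nt.EQ Pool.Agent.Lib.MP_17a322_nt.JAC

theorem exists_eval_ne {K : Type*} [Field K] [Infinite K] {σ : Type*} {P : MvPolynomial σ K} (h : P ≠ 0) :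
    ∃ w : σ → K, eval w P ≠ 0 := by
  by_contra hc
  push Not at hc
  exact h (MvPolynomial.funext fun w => by rw [hc w, map_zero])

theorem pderiv_homog {K : Type*} [CommRing K] {σ : Type*} {P : MvPolynomial σ K} {d : ℕ} (h : P.IsHomogeneous d)
    (j : σ) : (pderiv j P).IsHomogeneous (d - 1) := h.pderiv

theorem jacIneq_of_jacMin (K : Type u) [Field K] [NumberField K] (h : JacMin K) : JacIneq K := by
  classical
  apply jacIneq_of_fin
  intro m r d Φ hr hΦ ε hε
  by_cases hall : ∀ S : Fin r → Fin (m + 1), (Matrix.of fun i j => pderiv j (Φ (S i))).det = 0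
  · refine ⟨1, 0, one_ne_zero, ⟨0, isHomogeneous_one _ _⟩, fun w _ => ?_⟩
    have h1 : (fun s : Fin r → Fin (m + 1) => (Matrix.of fun i j => eval w (pderiv j (Φ (s i)))).det) = 0 := by
      funext S
      have h2 := congrArg (eval w) (hall S)
      rw [RingHom.map_det, map_zero] at h2
      exact h2
    rw [h1, logHeight_zero]
    have h3 := logHeight_nonneg fun a => eval w (Φ a)
    have h4 := logHeight_nonneg w
    positivity
  · push Not at hall
    obtain ⟨S₀, hS₀⟩ := hall
    obtain ⟨w₀, hw₀⟩ := exists_eval_ne hS₀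
    have hmin : ∀ (w : Fin r → K) (S : Fin r → Fin (m + 1)),
        eval w (Matrix.of fun i j => pderiv j (Φ (S i))).det = om (fun a j => eval w (pderiv j (Φ a))) S := by
      intro w S
      rw [RingHom.map_det]
      rfl
    rw [hmin] at hw₀
    obtain ⟨C₁, hC₁⟩ := logHeight_eval_le' (K := K) (N := r * (d - 1))
      (p := fun S : Fin r → Fin (m + 1) => (Matrix.of fun i j => pderiv j (Φ (S i))).det)
      fun S => det_homog _ fun i j => pderiv_homog (hΦ _) _
    obtain ⟨N, hN⟩ := exists_nat_gt ((((r + 1) * m : ℕ) : ℝ) * ((r * (d - 1) : ℕ) : ℝ) / (ε / 2))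
    have hNpos : (0 : ℝ) ≤ N := Nat.cast_nonneg N
    set s : ℕ := r + (N + 1) with hs
    have hsr : s - r = N + 1 := by omega
    have hrs : r < s := by omega
    obtain ⟨t, ht, htJ⟩ := exists_t (s := s) (fun a j => eval w₀ (pderiv j (Φ a))) S₀ hw₀
    obtain ⟨C₂, hC₂⟩ := height_ineq (K := K) (m := m) hrs t ht
    set Ψ : Fin s → MvPolynomial (Fin r) K := fun i => ∑ a : Fin (m + 1), C (t i ^ (a : ℕ)) * Φ a with hΨ
    have hΨh : ∀ i, (Ψ i).IsHomogeneous d := fun i => by
      refine IsHomogeneous.sum _ _ _ fun a _ => ?_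
      have := (isHomogeneous_C (Fin r) (t i ^ (a : ℕ))).mul (hΦ a)
      rwa [zero_add] at this
    have hΨd : ∀ (w : Fin r → K) i j, eval w (pderiv j (Ψ i)) = vv t (fun a j => eval w (pderiv j (Φ a))) i j := by
      intro w i j
      simp only [hΨ, vv, map_sum, Derivation.leibniz, pderiv_C, smul_eq_mul, mul_zero, add_zero, map_mul, eval_C]
    have hpj : ∀ (w : Fin r → K) (J : Fin r → Fin s),
        eval w (Matrix.of fun i j => pderiv j (Ψ (J i))).det = pj t (fun a j => eval w (pderiv j (Φ a))) J := by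
      intro w J
      rw [RingHom.map_det]
      unfold pj
      refine congrArg _ ?_
      ext i j
      exact hΨd w (J i) j
    have hmns : ∀ (w : Fin r → K) (I : Fin (r + 1) → Fin s), mns (fun k => Ψ (I k)) w =
        fun k : Fin (r + 1) => pj t (fun a j => eval w (pderiv j (Φ a))) (I ∘ k.succAbove) := by
      intro w I
      funext k
      unfold mns pj
      refine congrArg _ ?_
      ext i j
      exact hΨd w (I (k.succAbove i)) j
    choose G C₃ hG0 hGh hG using fun I : Fin (r + 1) ↪ Fin s => h r d (fun k => Ψ (I k)) (ε / 2) hr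
      (fun k => hΨh _) (half_pos hε)
    choose e he using hGh
    have hlin : ∀ I : Fin (r + 1) ↪ Fin s, ∃ C₄ : ℝ, ∀ w : Fin r → K,
        logHeight (fun k => eval w (Ψ (I k))) ≤ C₄ + logHeight fun a => eval w (Φ a) := fun I => by
      refine ⟨totalWeight K * Real.log (Nat.card (Fin (m + 1))) +
        logHeight (fun z : Fin (r + 1) × Fin (m + 1) => t (I z.1) ^ (z.2 : ℕ)), fun w => ?_⟩
      have h5 := logHeight_linearMap_apply_le (K := K)
        (fun z : Fin (r + 1) × Fin (m + 1) => t (I z.1) ^ (z.2 : ℕ)) fun a => eval w (Φ a)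
      have h6 : (fun k : Fin (r + 1) => eval w (Ψ (I k))) = fun k => ∑ a, (fun z : Fin (r + 1) × Fin (m + 1) =>
          t (I z.1) ^ (z.2 : ℕ)) (k, a) * eval w (Φ a) := by
        funext k
        simp only [hΨ, map_sum, map_mul, eval_C]
      rw [h6]
      exact h5
    choose C₄ hC₄ using hlin
    have hPJ0 : ∀ J : Fin r ↪ Fin s, (Matrix.of fun i j => pderiv j (Ψ (J i))).det ≠ 0 := fun J h0 => by
      have h5 := hpj w₀ J
      rw [h0, map_zero] at h5
      exact htJ J J.injective h5.symm
    refine ⟨(∏ I, G I) * ((∏ J : Fin r ↪ Fin s, (Matrix.of fun i j => pderiv j (Ψ (J i))).det) *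
      (Matrix.of fun i j => pderiv j (Φ (S₀ i))).det),
      (((r + 1) * m : ℕ) : ℝ) * |C₁| + |C₂| + ∑ I, (|C₃ I| + r * |C₄ I|), ?_, ⟨_, ((IsHomogeneous.prod _ _ _ fun I _ => he I).mul
        ((IsHomogeneous.prod _ _ _ fun J _ => det_homog _ fun i j => pderiv_homog (hΨh _) _).mul
          (det_homog _ fun i j => pderiv_homog (hΦ _) _)))⟩, ?_⟩
    · exact mul_ne_zero (Finset.prod_ne_zero_iff.2 fun I _ => hG0 I)
        (mul_ne_zero (Finset.prod_ne_zero_iff.2 fun J _ => hPJ0 J) hS₀)
    · intro w hw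
      rw [map_mul, map_mul, map_prod, map_prod] at hw
      have hw1 := left_ne_zero_of_mul hw
      have hw2 := left_ne_zero_of_mul (right_ne_zero_of_mul hw)
      have hw3 := right_ne_zero_of_mul (right_ne_zero_of_mul hw)
      rw [hmin] at hw3
      obtain ⟨I, hI⟩ := hC₂ (fun a j => eval w (pderiv j (Φ a))) ⟨S₀, hw3⟩ fun J => by
        rw [← hpj]
        exact Finset.prod_ne_zero_iff.1 hw2 J (Finset.mem_univ _)
      have h5 := hG I w (Finset.prod_ne_zero_iff.1 hw1 I (Finset.mem_univ _))
      rw [hmns] at h5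
      have h6 := hC₄ I w
      have h7 := hC₁ w
      have h8 : (fun S : Fin r → Fin (m + 1) => eval w (Matrix.of fun i j => pderiv j (Φ (S i))).det) =
          om fun a j => eval w (pderiv j (Φ a)) := by
        funext S
        exact hmin w S
      rw [h8] at h7
      have h9 : (fun s : Fin r → Fin (m + 1) => (Matrix.of fun i j => eval w (pderiv j (Φ (s i)))).det) =
          om fun a j => eval w (pderiv j (Φ a)) := rfl
      rw [h9]
      rw [hsr] at hI
      set H := logHeight (om fun a j => eval w (pderiv j (Φ a))) with hH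
      have hw0 := logHeight_nonneg w
      have hH0 : 0 ≤ H := logHeight_nonneg _
      have hN1 : (0 : ℝ) < ((N + 1 : ℕ) : ℝ) := by positivity
      have hM0 : (0 : ℝ) ≤ (((r + 1) * m : ℕ) : ℝ) := Nat.cast_nonneg _
      have k1 : (((r + 1) * m : ℕ) : ℝ) * ((r * (d - 1) : ℕ) : ℝ) ≤ ε / 2 * ((N + 1 : ℕ) : ℝ) := by
        rw [div_lt_iff₀ (half_pos hε)] at hN
        push_cast at hN ⊢
        nlinarith
      have k2 : (((r + 1) * m : ℕ) : ℝ) / ((N + 1 : ℕ) : ℝ) * H ≤
          (((r + 1) * m : ℕ) : ℝ) * |C₁| + ε / 2 * logHeight w := by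
        have k3 : H ≤ |C₁| + ((r * (d - 1) : ℕ) : ℝ) * logHeight w := h7.trans (by
          have := le_abs_self C₁; linarith)
        calc (((r + 1) * m : ℕ) : ℝ) / ((N + 1 : ℕ) : ℝ) * H
            ≤ (((r + 1) * m : ℕ) : ℝ) / ((N + 1 : ℕ) : ℝ) *
              (|C₁| + ((r * (d - 1) : ℕ) : ℝ) * logHeight w) :=
              mul_le_mul_of_nonneg_left k3 (div_nonneg hM0 hN1.le)
          _ = (((r + 1) * m : ℕ) : ℝ) * |C₁| / ((N + 1 : ℕ) : ℝ) +
              ((((r + 1) * m : ℕ) : ℝ) * ((r * (d - 1) : ℕ) : ℝ)) / ((N + 1 : ℕ) : ℝ) * logHeight w := by ring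
          _ ≤ (((r + 1) * m : ℕ) : ℝ) * |C₁| + ε / 2 * logHeight w := by
              refine add_le_add ?_ (mul_le_mul_of_nonneg_right ?_ hw0)
              · refine div_le_self (mul_nonneg hM0 (abs_nonneg _)) ?_
                push_cast
                linarith
              · rw [div_le_iff₀ hN1]
                exact k1
      have k4 : |C₃ I| + r * |C₄ I| ≤ ∑ I, (|C₃ I| + r * |C₄ I|) :=
        Finset.single_le_sum (f := fun I => |C₃ I| + (r : ℝ) * |C₄ I|) (fun I _ => by positivity)
          (Finset.mem_univ I)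
      have k5 : (r : ℝ) * logHeight (fun k => eval w (Ψ (I k))) ≤
          r * (|C₄ I| + logHeight fun a => eval w (Φ a)) :=
        mul_le_mul_of_nonneg_left (h6.trans (by have := le_abs_self (C₄ I); linarith)) (Nat.cast_nonneg r)
      have k6 := le_abs_self (C₃ I)
      have k7 := le_abs_self C₂
      linarith

end Pool.Agent.Lib.MP_17a322_nt.GR
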