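import Pool.Agent.Lib.MP_17a322_nt.GR.Q0a
import Pool.Agent.Lib.MP_17a322_nt.EQ.H1

/-!
The height of a hyperplane.
-/

universe u

namespace Pool.Agent.Lib.MP_17a322_nt.GR

open MvPolynomial Height NumberField
open Pool.Agent.Lib.MP_17a322_nt.EQ

theorem finrank_hyper {K : Type u} [Field K] [NumberField K] {n : ℕ} {a : Fin (n + 1) → K} (ha : a ≠ 0)
    (V : Submodule K (Fin (n + 1) → K)) (hV : ∀ v, v ∈ V ↔ ∑ j, a j * v j = 0) :
    Module.finrank K V = n := by
  classical
  set φ : (Fin (n + 1) → K) →ₗ[K] K := ∑ j, a j • LinearMap.proj j with hφ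
  have h1 : ∀ v, φ v = ∑ j, a j * v j := fun v => by simp [hφ]
  have h2 : V = LinearMap.ker φ := by
    ext v
    rw [hV, LinearMap.mem_ker, h1]
  have h3 : LinearMap.range φ = ⊤ := by
    apply LinearMap.range_eq_top.2
    apply LinearMap.surjective
    intro h4
    apply ha
    funext j
    have h5 := h1 (Pi.single j 1)
    rw [h4, LinearMap.zero_apply] at h5
    have h6 : ∑ i, a i * (Pi.single j (1 : K) : Fin (n + 1) → K) i = a j := by
      rw [Finset.sum_eq_single j]
      · rw [Pi.single_eq_same, mul_one]
      · intro i _ hi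
        rw [Pi.single_eq_of_ne hi, mul_zero]
      · intro h; exact absurd (Finset.mem_univ j) h
    rw [h6] at h5
    exact h5.symm
  have h4 := LinearMap.finrank_range_add_finrank_ker φ
  rw [h3, finrank_top, Module.finrank_self, Module.finrank_fin_fun, ← h2] at h4
  omega

/-- Linearly independent vectors in `n + 1`-space have a nonzero minor which omits one coordinate. -/
theorem exists_omit {K : Type*} [Field K] {n : ℕ} {y : Fin n → Fin (n + 1) → K} (hy : LinearIndependent K y) :
    ∃ k : Fin (n + 1), (Matrix.of fun a b => y a (k.succAbove b)).det ≠ 0 := by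
  classical
  obtain ⟨s, hs⟩ := H1_minor hy
  have hinj : Function.Injective s := by
    intro b b' h
    by_contra hne
    exact hs (Matrix.det_zero_of_column_eq hne fun a => by simp only [Matrix.of_apply, h])
  have hns : ∃ k, ∀ b, s b ≠ k := by
    by_contra hc
    push Not at hc
    have h1 : Function.Surjective s := hc
    have h2 := Fintype.card_of_bijective ⟨hinj, h1⟩
    simp at h2
  obtain ⟨k, hk⟩ := hns
  choose σ hσ using fun b => Fin.exists_succAbove_eq (hk b)
  have hσi : Function.Injective σ := fun b b' h => hinj (by rw [← hσ b, ← hσ b', h])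
  refine ⟨k, fun h0 => hs ?_⟩
  have h1 : (Matrix.of fun a b => y a (s b)) = (Matrix.of fun a b => y a (k.succAbove b)).submatrix id
      (Equiv.ofBijective σ (Finite.injective_iff_bijective.1 hσi)) := by
    ext a b
    simp only [Matrix.of_apply, Matrix.submatrix_apply, id, Equiv.ofBijective_apply, hσ]
  rw [h1, Matrix.det_permute', h0, mul_zero]

theorem hPl_hyper {K : Type u} [Field K] [NumberField K] {n : ℕ} {a : Fin (n + 1) → K} (ha : a ≠ 0)
    (V : Submodule K (Fin (n + 1) → K)) (hV : ∀ v, v ∈ V ↔ ∑ j, a j * v j = 0) :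
    logHeight a ≤ hPl V := by
  classical
  have hr := finrank_hyper ha V hV
  set B := Module.finBasisOfFinrankEq K V hr with hB
  set y : Fin n → Fin (n + 1) → K := fun k => (B k : Fin (n + 1) → K) with hy
  have hyV : ∀ k, y k ∈ V := fun k => (B k).2
  have hyi : LinearIndependent K y := B.linearIndependent.map' V.subtype V.ker_subtype
  rw [hPl_eq V hr y hyV hyi]
  obtain ⟨k₀, hk₀⟩ := exists_omit hyi
  have hT : ∀ k : Fin (n + 1), (Matrix.of fun (i l : Fin n) => y l (k.succAbove i)).det =
      (Matrix.of fun a b => y a (k.succAbove b)).det := fun k => by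
    rw [← Matrix.det_transpose]
    rfl
  obtain ⟨c, hc⟩ := rel_unique (fun k i => y i k) a (fun j => (hV _).1 (hyV j)) k₀ (by rw [hT]; exact hk₀)
  have hc0 : c ≠ 0 := by
    rintro rfl
    exact ha (by funext k; rw [hc k, zero_mul]; rfl)
  have h1 : a = c • fun k : Fin (n + 1) => (-1) ^ (k : ℕ) *
      (fun k : Fin (n + 1) => (Matrix.of fun a b => y a (k.succAbove b)).det) k := by
    funext k
    rw [Pi.smul_apply, smul_eq_mul, hc k, hT]
  have h2 : logHeight a = logHeight fun k : Fin (n + 1) => (Matrix.of fun a b => y a (k.succAbove b)).det := by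
    conv_lhs => rw [h1]
    rw [logHeight_smul_eq_logHeight _ hc0, logHeight_sign]
  rw [h2]
  exact logHeight_comp_le (fun k : Fin (n + 1) => k.succAbove)
    fun s : Fin n → Fin (n + 1) => (Matrix.of fun a b => y a (s b)).det

end Pool.Agent.Lib.MP_17a322_nt.GR
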