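import Pool.Agent.Lib.MP_17a322_nt.GR.P2a

/-!
Minors of `s` general vectors in the row space of a matrix: the constants.
-/

universe u

namespace Pool.Agent.Lib.MP_17a322_nt.GR

open MvPolynomial Height NumberField
open Pool.Agent.Lib.MP_17a322_nt.EQ

/-- A determinant of linear forms is homogeneous. -/
theorem det_homog {R : Type*} [CommRing R] {σ : Type*} {r e : ℕ} (M : Matrix (Fin r) (Fin r) (MvPolynomial σ R))
    (h : ∀ i j, (M i j).IsHomogeneous e) : M.det.IsHomogeneous (r * e) := by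
  rw [Matrix.det_apply']
  refine IsHomogeneous.sum _ _ _ fun p _ => ?_
  have h1 : (∏ i, M (p i) i).IsHomogeneous (r * e) := by
    have := IsHomogeneous.prod Finset.univ (fun i => M (p i) i) (fun _ => e) fun i _ => h _ _
    simpa using this
  have h2 : (((Equiv.Perm.sign p : ℤˣ) : ℤ) : MvPolynomial σ R) = C (((Equiv.Perm.sign p : ℤˣ) : ℤ) : R) := by
    simp
  rw [h2]
  have := (isHomogeneous_C σ (((Equiv.Perm.sign p : ℤˣ) : ℤ) : R)).mul h1
  rwa [zero_add] at this

section

variable {K : Type u} [Field K] [NumberField K]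

theorem lower {m r s : ℕ} (t : Fin s → K) :
    ∃ c : Pl K → ℝ, (∀ v, 0 ≤ c v) ∧ FS c ∧ ∀ (v : Pl K) (A : Fin (m + 1) → Fin r → K)
      (J : Fin r → Fin s), av v (pj t A J) ≤ Real.exp (c v) * ⨆ S, av v (om A S) := by
  classical
  have hF : ∀ J : Fin r → Fin s, (∑ S : Fin r → Fin (m + 1), C (∏ i, t (J i) ^ (S i : ℕ)) * X S :
      MvPolynomial (Fin r → Fin (m + 1)) K).IsHomogeneous 1 := fun J => by
    refine IsHomogeneous.sum _ _ _ fun S _ => ?_
    have := (isHomogeneous_C (Fin r → Fin (m + 1)) (∏ i, t (J i) ^ (S i : ℕ))).mul (isHomogeneous_X K S)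
    rwa [zero_add] at this
  choose c h0 h1 h2 using fun J => hb_poly 1 _ (hF J)
  refine ⟨fun v => ∑ J, c J v, fun v => Finset.sum_nonneg fun J _ => h0 J v,
    hs_fs_sum _ _ fun J _ => h1 J, fun v A J => ?_⟩
  have h3 := h2 J v (om A)
  have h4 : eval (om A) (∑ S : Fin r → Fin (m + 1), C (∏ i, t (J i) ^ (S i : ℕ)) * X S) = pj t A J := by
    rw [pj_eq]
    simp
  rw [h4, pow_one] at h3
  refine h3.trans (mul_le_mul_of_nonneg_right (Real.exp_le_exp.2 ?_) (Real.iSup_nonneg fun S => (av v).nonneg _))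
  exact Finset.single_le_sum (f := fun J => c J v) (fun J _ => h0 J v) (Finset.mem_univ J)

omit [NumberField K] in
/-- The rows of `A` from the vectors at `m + 1` different points. -/
theorem inv_eq {m r s : ℕ} (t : Fin s → K) (ht : Function.Injective t) (b : Fin (m + 1) ↪ Fin s) :
    ∃ β : Fin (m + 1) → Fin (m + 1) → K, ∀ (A : Fin (m + 1) → Fin r → K) a j,
      A a j = ∑ x, β a x * vv t A (b x) j := by
  classical
  set W := Matrix.vandermonde fun x => t (b x) with hW
  have h1 : IsUnit W.det := by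
    rw [isUnit_iff_ne_zero, hW, Matrix.det_vandermonde_ne_zero_iff]
    exact ht.comp b.injective
  refine ⟨fun a x => W⁻¹ a x, fun A a j => ?_⟩
  have h2 : ∀ x, vv t A (b x) j = (W.mulVec fun a => A a j) x := fun x => by
    simp [vv, hW, Matrix.mulVec, dotProduct, Matrix.vandermonde_apply]
  have h3 : (fun a => A a j) = W⁻¹.mulVec (W.mulVec fun a => A a j) := by
    rw [Matrix.mulVec_mulVec, Matrix.nonsing_inv_mul W h1, Matrix.one_mulVec]
  have h4 := congrFun h3 a
  rw [h4]
  simp only [Matrix.mulVec, dotProduct]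
  refine Finset.sum_congr rfl fun x _ => ?_
  rw [h2]
  simp only [Matrix.mulVec, dotProduct]

theorem upper {m r s : ℕ} (t : Fin s → K) (ht : Function.Injective t) :
    ∃ c : Pl K → ℝ, (∀ v, 0 ≤ c v) ∧ FS c ∧ ∀ (v : Pl K) (A : Fin (m + 1) → Fin r → K)
      (J : Fin r → Fin s) (b : Fin (m + 1) ↪ Fin s),
      (∀ x, ∃ c : Fin r → K, (∀ l, av v (c l) ≤ 1) ∧ ∀ j, vv t A (b x) j = ∑ l, c l * vv t A (J l) j) →
      ∀ S, av v (om A S) ≤ Real.exp (c v) * av v (pj t A J) := by
  classical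
  choose β hβ using fun b : Fin (m + 1) ↪ Fin s => inv_eq (r := r) t ht b
  have hF : ∀ z : (Fin (m + 1) ↪ Fin s) × (Fin r → Fin (m + 1)),
      ((Matrix.of fun i l => ∑ x, C (β z.1 (z.2 i) x) * X (x, l) :
        Matrix (Fin r) (Fin r) (MvPolynomial (Fin (m + 1) × Fin r) K)).det).IsHomogeneous (r * 1) := fun z => by
    refine det_homog _ fun i j => ?_
    rw [Matrix.of_apply]
    refine IsHomogeneous.sum _ _ _ fun x _ => ?_
    have := (isHomogeneous_C (Fin (m + 1) × Fin r) (β z.1 (z.2 i) x)).mul (isHomogeneous_X K (x, j))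
    rwa [zero_add] at this
  choose c h0 h1 h2 using fun z => hb_poly (r * 1) _ (hF z)
  refine ⟨fun v => ∑ z, c z v, fun v => Finset.sum_nonneg fun J _ => h0 J v,
    hs_fs_sum _ _ fun J _ => h1 J, fun v A J b hb S => ?_⟩
  choose γ hγ1 hγ2 using hb
  have h3 := h2 (b, S) v fun z => γ z.1 z.2
  have h4 : om A S = eval (fun z => γ z.1 z.2) ((Matrix.of fun i l => ∑ x, C (β b (S i) x) * X (x, l) :
        Matrix (Fin r) (Fin r) (MvPolynomial (Fin (m + 1) × Fin r) K)).det) * pj t A J := by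
    rw [RingHom.map_det]
    unfold om pj
    rw [← Matrix.det_mul]
    refine congrArg _ ?_
    ext i j
    rw [Matrix.mul_apply, Matrix.of_apply, hβ b A (S i) j]
    simp only [RingHom.mapMatrix_apply, Matrix.map_apply, Matrix.of_apply, map_sum, map_mul, eval_C, eval_X]
    simp only [hγ2, Finset.mul_sum, Finset.sum_mul]
    rw [Finset.sum_comm]
    refine Finset.sum_congr rfl fun l _ => Finset.sum_congr rfl fun x _ => by ring
  rw [h4, map_mul]
  refine mul_le_mul_of_nonneg_right (h3.trans ?_) ((av v).nonneg _)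
  have h5 : (⨆ z : Fin (m + 1) × Fin r, av v (γ z.1 z.2)) ^ (r * 1) ≤ 1 :=
    pow_le_one₀ (Real.iSup_nonneg fun z => (av v).nonneg _) (Real.iSup_le (fun z => hγ1 _ _) zero_le_one)
  calc Real.exp (c (b, S) v) * (⨆ z : Fin (m + 1) × Fin r, av v (γ z.1 z.2)) ^ (r * 1)
      ≤ Real.exp (c (b, S) v) * 1 := mul_le_mul_of_nonneg_left h5 (Real.exp_pos _).le
    _ = Real.exp (c (b, S) v) := mul_one _
    _ ≤ _ := Real.exp_le_exp.2 (Finset.single_le_sum (f := fun z => c z v) (fun z _ => h0 z v)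
      (Finset.mem_univ (b, S)))

end

end Pool.Agent.Lib.MP_17a322_nt.GR
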