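import Pool.Agent.Lib.MP_17a322_nt.GR.P2a

/-!
Tools for the gradients of forms.
-/

universe u

namespace Pool.Agent.Lib.MP_17a322_nt.GR

open MvPolynomial Height NumberField
open Pool.Agent.Lib.MP_17a322_nt.EQ

theorem iSup_norm {ι : Type*} [Fintype ι] [Nonempty ι] (y : ι → ℤ) :
    (((⨆ i, |y i|) : ℤ) : ℝ) = ‖y‖ := by
  rw [Finite.map_iSup_of_monotone _ Int.cast_mono]
  apply le_antisymm
  · apply ciSup_le
    intro i
    have := norm_le_pi_norm y i
    rw [Int.norm_eq_abs] at this
    rw [Int.cast_abs]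
    exact this
  · rw [pi_norm_le_iff_of_nonempty]
    intro i
    rw [Int.norm_eq_abs, ← Int.cast_abs]
    exact Finite.le_ciSup_of_le i (le_refl _)

/-- The height of a vector of integers. -/
theorem logHeight_int {ι : Type*} [Fintype ι] [Nonempty ι] (x : ι → ℤ) (hx : x ≠ 0) :
    logHeight (fun i => (x i : ℚ)) = Real.log ‖x‖ - Real.log ((Finset.univ.gcd x : ℤ) : ℝ) := by
  obtain ⟨y, hy, hg⟩ := Finset.extract_gcd (s := Finset.univ) x Finset.univ_nonempty
  set g : ℤ := Finset.univ.gcd x with hgdef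
  have hg0 : g ≠ 0 := by
    intro h
    apply hx
    funext i
    rw [hy i (Finset.mem_univ i), h, zero_mul, Pi.zero_apply]
  have hgnn : 0 ≤ g := by
    have h1 : normalize g = g := Finset.normalize_gcd
    rw [← h1, ← Int.abs_eq_normalize]
    exact abs_nonneg g
  have hgp : 0 < g := lt_of_le_of_ne hgnn (Ne.symm hg0)
  have h1 : (fun i => (x i : ℚ)) = (g : ℚ) • (((↑) : ℤ → ℚ) ∘ y) := by
    funext i
    rw [Pi.smul_apply, smul_eq_mul, Function.comp_apply, hy i (Finset.mem_univ i), Int.cast_mul]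
  have h2 : x = g • y := by
    funext i
    rw [Pi.smul_apply, smul_eq_mul, ← hy i (Finset.mem_univ i)]
  have hy0 : y ≠ 0 := by
    intro h
    apply hx
    rw [h2, h, smul_zero]
  have h3 : ‖x‖ = (g : ℝ) * ‖y‖ := by
    rw [← iSup_norm, ← iSup_norm, ← Int.cast_mul]
    congr 1
    have h4 : ∀ i, |x i| = g * |y i| := by
      intro i
      rw [hy i (Finset.mem_univ i), abs_mul, abs_of_pos hgp]
    simp only [h4]
    obtain ⟨i₀, hi₀⟩ := exists_eq_ciSup_of_finite (f := fun i => |y i|)
    apply le_antisymm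
    · apply ciSup_le
      intro i
      exact mul_le_mul_of_nonneg_left (Finite.le_ciSup_of_le i (le_refl _)) hgnn
    · rw [← hi₀]
      exact Finite.le_ciSup_of_le i₀ (le_refl _)
  rw [h1, logHeight_smul_eq_logHeight _ (Int.cast_ne_zero.2 hg0), Rat.logHeight_eq_max_abs_of_gcd_eq_one hg,
    iSup_norm, h3, Real.log_mul (Int.cast_ne_zero.2 hg0) (norm_ne_zero_iff.2 hy0)]
  ring

theorem gcd_int_pos {ι : Type*} [Fintype ι] (x : ι → ℤ) (hx : x ≠ 0) : 0 < Finset.univ.gcd x := by
  have h1 : normalize (Finset.univ.gcd x) = Finset.univ.gcd x := Finset.normalize_gcd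
  have h2 : 0 ≤ Finset.univ.gcd x := by
    rw [← h1, ← Int.abs_eq_normalize]
    exact abs_nonneg _
  refine lt_of_le_of_ne h2 fun h => hx ?_
  funext i
  exact Finset.gcd_eq_zero_iff.1 h.symm i (Finset.mem_univ i)

/-- The value of a form at a multiple of a point. -/
theorem eval_scale {R σ : Type*} [CommRing R] {φ : MvPolynomial σ R} {n : ℕ}
    (h : φ.IsHomogeneous n) (t : R) (w : σ → R) : eval (fun i => t * w i) φ = t ^ n * eval w φ := by
  classical
  rw [eval_eq, eval_eq, Finset.mul_sum]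
  apply Finset.sum_congr rfl
  intro m hm
  have h1 : (∏ i ∈ m.support, (t * w i) ^ m i) = t ^ n * ∏ i ∈ m.support, w i ^ m i := by
    have h2 : ∀ i ∈ m.support, (t * w i) ^ m i = t ^ m i * w i ^ m i := fun i _ => mul_pow _ _ _
    rw [Finset.prod_congr rfl h2, Finset.prod_mul_distrib, Finset.prod_pow_eq_pow_sum]
    congr 2
    have h3 := h.degree_eq_sum_deg_support hm
    exact h3.symm
  rw [h1]
  ring

/-- A multiple of a polynomial has integer coefficients. -/
theorem clear1 {σ : Type*} (p : MvPolynomial σ ℚ) :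
    ∃ (N : ℤ) (q : MvPolynomial σ ℤ), N ≠ 0 ∧ map (Int.castRingHom ℚ) q = C (N : ℚ) * p := by
  induction p using MvPolynomial.induction_on with
  | C a =>
    refine ⟨a.den, C a.num, Int.natCast_ne_zero.2 a.den_nz, ?_⟩
    rw [map_C, ← C_mul]
    congr 1
    rw [eq_intCast, Int.cast_natCast, mul_comm, Rat.mul_den_eq_num]
  | add p q hp hq =>
    obtain ⟨N, p', hN, hp'⟩ := hp
    obtain ⟨M, q', hM, hq'⟩ := hq
    refine ⟨N * M, C M * p' + C N * q', mul_ne_zero hN hM, ?_⟩
    rw [map_add, map_mul, map_mul, hp', hq', map_C, map_C, eq_intCast, eq_intCast, Int.cast_mul, C_mul]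
    ring
  | mul_X p i hp =>
    obtain ⟨N, p', hN, hp'⟩ := hp
    refine ⟨N, p' * X i, hN, ?_⟩
    rw [map_mul, hp', map_X, mul_assoc]

/-- The value at an integral point. -/
theorem eval_cast {σ : Type*} (W : σ → ℤ) (p : MvPolynomial σ ℤ) :
    eval (fun i => (W i : ℚ)) (map (Int.castRingHom ℚ) p) = ((eval W p : ℤ) : ℚ) := by
  rw [eval_map]
  exact (eval₂_comp (Int.castRingHom ℚ) W p).symm

/-- A nonzero vector of rational numbers is a multiple of a vector of coprime integers. -/
theorem exists_prim {ι : Type*} [Fintype ι] [Nonempty ι] (w : ι → ℚ) (hw : w ≠ 0) :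
    ∃ (c : ℚ) (y : ι → ℤ), c ≠ 0 ∧ (∀ i, w i = c * (y i : ℚ)) ∧ Finset.univ.gcd y = 1 := by
  classical
  set m : ℚ := ∏ i, ((w i).den : ℚ) with hm
  have hm0 : m ≠ 0 := Finset.prod_ne_zero_iff.2 fun i _ => Nat.cast_ne_zero.2 (w i).den_nz
  let u : ι → ℤ := fun i => (w i).num * ∏ j ∈ Finset.univ.erase i, ((w j).den : ℤ)
  have hu : ∀ i, (u i : ℚ) = m * w i := by
    intro i
    simp only [u, hm]
    rw [Int.cast_mul, Int.cast_prod, ← Finset.mul_prod_erase Finset.univ _ (Finset.mem_univ i)]
    simp only [Int.cast_natCast]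
    have h1 : ((w i).num : ℚ) = w i * (w i).den := (Rat.mul_den_eq_num (w i)).symm
    rw [h1]
    ring
  obtain ⟨y, hy, hg⟩ := Finset.extract_gcd (s := Finset.univ) u Finset.univ_nonempty
  set g : ℤ := Finset.univ.gcd u with hgdef
  have hg0 : g ≠ 0 := by
    intro h
    apply hw
    funext i
    have h1 := hu i
    rw [hy i (Finset.mem_univ i), h, zero_mul, Int.cast_zero] at h1
    exact ((mul_eq_zero.1 h1.symm).resolve_left hm0)
  refine ⟨g / m, y, div_ne_zero (Int.cast_ne_zero.2 hg0) hm0, fun i => ?_, hg⟩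
  have h1 := hu i
  rw [hy i (Finset.mem_univ i), Int.cast_mul] at h1
  rw [div_mul_eq_mul_div, h1, mul_div_cancel_left₀ _ hm0]

/-- The chain rule. -/
theorem chain {R : Type*} [CommRing R] {σ τ : Type*} [Fintype σ] (Φ : σ → MvPolynomial τ R)
    (H : MvPolynomial σ R) (j : τ) :
    pderiv j (aeval Φ H) = ∑ a, aeval Φ (pderiv a H) * pderiv j (Φ a) := by
  classical
  induction H using MvPolynomial.induction_on with
  | C a => simp
  | add p q hp hq => simp only [map_add, hp, hq, add_mul, Finset.sum_add_distrib]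
  | mul_X p i hp =>
    rw [map_mul, aeval_X, pderiv_mul, hp, Finset.sum_mul]
    have h1 : ∀ a, aeval Φ (pderiv a (p * X i)) * pderiv j (Φ a) =
        aeval Φ (pderiv a p) * pderiv j (Φ a) * Φ i +
          if a = i then aeval Φ p * pderiv j (Φ i) else 0 := by
      intro a
      rw [pderiv_mul, pderiv_X, map_add, map_mul, map_mul, aeval_X]
      by_cases h : a = i
      · subst h
        simp
        ring
      · rw [if_neg h, Pi.single_eq_of_ne (Ne.symm h)]
        simp
        ring
    rw [Finset.sum_congr rfl fun a _ => h1 a, Finset.sum_add_distrib, Finset.sum_ite_eq']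
    simp

/-- The partial derivatives of an irreducible form are not all divisible by it. -/
theorem exists_pderiv {K : Type*} [Field K] [CharZero K] {σ : Type*} [Fintype σ] {e : ℕ}
    {H : MvPolynomial σ K} (hh : H.IsHomogeneous e) (hi : Irreducible H) :
    ∃ j, ¬ H ∣ pderiv j H := by
  have he : e ≠ 0 := by
    rintro rfl
    have h1 := (totalDegree_zero_iff_isHomogeneous σ).2 hh
    have h2 := totalDegree_eq_zero_iff_eq_C.1 h1
    apply hi.not_isUnit
    rw [h2]
    refine IsUnit.map C (isUnit_iff_ne_zero.2 fun h3 => hi.ne_zero ?_)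
    rw [h2, h3, C_0]
  have h1 : ∃ j, pderiv j H ≠ 0 := by
    by_contra hc
    push Not at hc
    have h2 := hh.sum_X_mul_pderiv
    rw [Finset.sum_eq_zero fun j _ => by rw [hc j, mul_zero]] at h2
    have h3 : (e : K) ≠ 0 := Nat.cast_ne_zero.2 he
    have h4 : e • H = C (e : K) * H := by simp
    rw [h4] at h2
    rcases mul_eq_zero.1 h2.symm with h5 | h5
    · rw [C_eq_zero] at h5
      exact h3 h5
    · exact hi.ne_zero h5
  obtain ⟨j, hj⟩ := h1
  refine ⟨j, fun ⟨q, hq⟩ => ?_⟩
  have h2 : q ≠ 0 := by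
    rintro rfl
    exact hj (by rw [hq, mul_zero])
  have h3 := totalDegree_mul_of_isDomain hi.ne_zero h2
  rw [← hq, hh.totalDegree hi.ne_zero, (hh.pderiv (i := j)).totalDegree hj] at h3
  omega

section

variable {K : Type*} [Field K]

/-- A linear relation between `r + 1` vectors in `r`-space of rank `r` is proportional to the vector of the
minors. -/
theorem rel_unique {r : ℕ} (V : Fin (r + 1) → Fin r → K) (g : Fin (r + 1) → K)
    (hg : ∀ j, ∑ k, g k * V k j = 0) (k₀ : Fin (r + 1))
    (h0 : (Matrix.of fun (i l : Fin r) => V (k₀.succAbove i) l).det ≠ 0) :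
    ∃ c : K, ∀ k, g k = c * ((-1) ^ (k : ℕ) * (Matrix.of fun (i l : Fin r) => V (k.succAbove i) l).det) := by
  set D : Fin (r + 1) → K := fun k => (-1) ^ (k : ℕ) * (Matrix.of fun (i l : Fin r) => V (k.succAbove i) l).det
    with hD
  have hk0 : D k₀ ≠ 0 := mul_ne_zero (pow_ne_zero _ (neg_ne_zero.2 one_ne_zero)) h0
  refine ⟨g k₀ / D k₀, fun k => ?_⟩
  set u : Fin (r + 1) → K := fun k => g k - g k₀ / D k₀ * D k with hu
  have hu0 : u k₀ = 0 := by
    simp only [hu]
    rw [div_mul_cancel₀ _ hk0, sub_self]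
  have hrel : ∀ j, ∑ k, u k * V k j = 0 := fun j => by
    have h1 := rel V j
    have h2 : ∑ k, u k * V k j = ∑ k, g k * V k j - g k₀ / D k₀ *
        ∑ k : Fin (r + 1), (-1) ^ (k : ℕ) * V k j *
          (Matrix.of fun (i l : Fin r) => V (k.succAbove i) l).det := by
      rw [Finset.mul_sum, ← Finset.sum_sub_distrib]
      refine Finset.sum_congr rfl fun k _ => ?_
      simp only [hu, hD]
      ring
    rw [h2, hg, h1]
    ring
  have hz : (fun i => u (k₀.succAbove i)) = 0 := by
    apply Matrix.eq_zero_of_vecMul_eq_zero h0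
    funext l
    have h1 := hrel l
    rw [Fin.sum_univ_succAbove _ k₀, hu0, zero_mul, zero_add] at h1
    exact h1
  have hall : ∀ k, u k = 0 := fun k => by
    rcases Fin.eq_self_or_eq_succAbove k₀ k with rfl | ⟨l, rfl⟩
    · exact hu0
    · exact congrFun hz l
  have := hall k
  simp only [hu] at this
  exact sub_eq_zero.1 this

end

/-- The height does not depend on the signs of the coordinates. -/
theorem logHeight_sign {K : Type u} [Field K] [NumberField K] {n : ℕ} (x : Fin n → K) :
    logHeight (fun k : Fin n => (-1) ^ (k : ℕ) * x k) = logHeight x := by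
  rcases eq_or_ne x 0 with rfl | hx
  · have h1 : (fun k : Fin n => (-1) ^ (k : ℕ) * (0 : Fin n → K) k) = 0 := by
      funext k
      simp
    rw [h1]
  · have h1 : (fun k : Fin n => (-1) ^ (k : ℕ) * x k) ≠ 0 := fun h => hx (by
      funext k
      exact (mul_eq_zero.1 (congrFun h k)).resolve_left (pow_ne_zero _ (neg_ne_zero.2 one_ne_zero)))
    rw [← hl_psum_sup h1, ← hl_psum_sup hx]
    congr 1
    funext v
    congr 2
    funext k
    rw [map_mul, map_pow, (av v).map_neg, map_one, one_pow, one_mul]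

end Pool.Agent.Lib.MP_17a322_nt.GR
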