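import Pool.Agent.Lib.MP_17a322_nt.GR.Q3a

/-!
The equation of a parametrised hypersurface.
-/

namespace Pool.Agent.Lib.MP_17a322_nt.GR

open MvPolynomial

/-- The kernel of a polynomial map given by `r + 1` polynomials in `r` variables of rank `r` is principal. -/
theorem exists_gen {K : Type*} [Field K] [CharZero K] {r : ℕ}
    (Φ : Fin (r + 1) → MvPolynomial (Fin r) K) (k : Fin (r + 1))
    (hM : (Matrix.of fun i j => pderiv j (Φ (k.succAbove i))).det ≠ 0) :
    ∃ H : MvPolynomial (Fin (r + 1)) K, Irreducible H ∧ aeval Φ H = 0 ∧ ∀ G, aeval Φ G = 0 → H ∣ G := by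
  classical
  set E : MvPolynomial (Fin (r + 1)) K ≃ₐ[K] Polynomial (MvPolynomial (Fin r) K) :=
    (renameEquiv K (finSuccEquiv' k)).trans (optionEquivLeft K (Fin r)) with hE
  set φ : MvPolynomial (Fin (r + 1)) K →ₐ[K] MvPolynomial (Fin r) K := aeval Φ with hφ
  set J : Ideal (Polynomial (MvPolynomial (Fin r) K)) := RingHom.ker (φ.comp E.symm.toAlgHom) with hJ
  have hJp : J.IsPrime := RingHom.ker_isPrime _
  have hmem : ∀ p, p ∈ J ↔ φ (E.symm p) = 0 := fun p => Iff.rfl
  have hC : ∀ a : MvPolynomial (Fin r) K, E.symm (Polynomial.C a) = rename k.succAbove a := by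
    intro a
    rw [AlgEquiv.symm_apply_eq]
    induction a using MvPolynomial.induction_on with
    | C a => simp [hE, optionEquivLeft_C]
    | add p q hp hq => rw [Polynomial.C_add, hp, hq, map_add, map_add]
    | mul_X p i hp =>
      rw [Polynomial.C_mul, hp, map_mul, map_mul, rename_X]
      congr 1
      simp [hE, optionEquivLeft_X_some]
  have h0 : ∀ a : MvPolynomial (Fin r) K, Polynomial.C a ∈ J → a = 0 := by
    intro a ha
    rw [hmem, hC, hφ, aeval_rename] at ha
    exact indep (fun i => Φ (k.succAbove i)) hM a ha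
  obtain ⟨F, hF0, hF⟩ := dep Φ
  obtain ⟨H, hHi, hHJ, hHd⟩ := principal J h0 (E F) (by
    rw [hmem, AlgEquiv.symm_apply_apply]
    exact hF) (by
    intro h
    exact hF0 (E.injective (by rw [h, map_zero])))
  refine ⟨E.symm H, ?_, (hmem H).1 hHJ, fun G hG => ?_⟩
  · exact (MulEquiv.irreducible_iff (E.symm : Polynomial (MvPolynomial (Fin r) K) ≃ₐ[K] _)).2 hHi
  · have h1 := hHd (E G) (by rw [hmem, AlgEquiv.symm_apply_apply]; exact hG)
    have h2 := map_dvd E.symm h1
    rwa [AlgEquiv.symm_apply_apply] at h2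

/-- The components of a relation between forms of the same degree are relations. -/
theorem comp_rel {K : Type*} [Field K] {σ τ : Type*} {d : ℕ} (hd : d ≠ 0)
    (Φ : σ → MvPolynomial τ K) (hΦ : ∀ a, (Φ a).IsHomogeneous d) (H : MvPolynomial σ K) (hH : aeval Φ H = 0)
    (i : ℕ) : aeval Φ (homogeneousComponent i H) = 0 := by
  classical
  have h1 : ∀ j, (aeval Φ (homogeneousComponent j H)).IsHomogeneous (d * j) := fun j =>
    (homogeneousComponent_isHomogeneous j H).aeval Φ hΦ
  by_cases hi : i < H.totalDegree + 1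
  · have h2 := congrArg (fun F => homogeneousComponent (d * i) (aeval Φ F)) (sum_homogeneousComponent H)
    simp only [hH, map_zero, map_sum] at h2
    rw [Finset.sum_eq_single i] at h2
    · rw [homogeneousComponent_of_mem ((mem_homogeneousSubmodule _ _).2 (h1 i)), if_pos rfl] at h2
      exact h2
    · intro j _ hj
      rw [homogeneousComponent_of_mem ((mem_homogeneousSubmodule _ _).2 (h1 j)), if_neg]
      intro h3
      exact hj (Nat.eq_of_mul_eq_mul_left (Nat.pos_of_ne_zero hd) h3.symm)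
    · intro h3
      exact absurd (Finset.mem_range.2 hi) h3
  · rw [homogeneousComponent_eq_zero _ _ (by omega), map_zero]

theorem exists_equation {K : Type*} [Field K] [CharZero K] {r d : ℕ} (hr : 0 < r)
    (Φ : Fin (r + 1) → MvPolynomial (Fin r) K) (hΦ : ∀ a, (Φ a).IsHomogeneous d) (k : Fin (r + 1))
    (hM : (Matrix.of fun i j => pderiv j (Φ (k.succAbove i))).det ≠ 0) :
    ∃ (e : ℕ) (H : MvPolynomial (Fin (r + 1)) K), H.IsHomogeneous e ∧ Irreducible H ∧
      aeval Φ H = 0 ∧ ∀ G, aeval Φ G = 0 → H ∣ G := by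
  classical
  obtain ⟨H, hHi, hH, hd⟩ := exists_gen Φ k hM
  have hd0 : d ≠ 0 := by
    rintro rfl
    apply hM
    apply Matrix.det_eq_zero_of_row_eq_zero (⟨0, hr⟩ : Fin r)
    intro j
    rw [Matrix.of_apply]
    have h1 := totalDegree_eq_zero_iff_eq_C.1
      ((totalDegree_zero_iff_isHomogeneous (Fin r)).2 (hΦ (k.succAbove ⟨0, hr⟩)))
    rw [h1, pderiv_C]
  set n := H.totalDegree with hn
  have h1 := hd _ (comp_rel hd0 Φ hΦ H hH n)
  obtain ⟨Q, hQ⟩ := h1
  have hT0 : homogeneousComponent n H ≠ 0 := by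
    have h1 : H.support.Nonempty := support_nonempty.2 hHi.ne_zero
    obtain ⟨m, hm, hm'⟩ := Finset.exists_mem_eq_sup H.support h1 fun s => s.sum fun _ e => e
    intro h
    have h2 := congrArg (coeff m) h
    rw [coeff_homogeneousComponent, coeff_zero, if_pos] at h2
    · exact (mem_support_iff.1 hm) h2
    · rw [hn, totalDegree, hm']
      rfl
  have hQ0 : Q ≠ 0 := by
    rintro rfl
    exact hT0 (by rw [hQ, mul_zero])
  have h2 := totalDegree_mul_of_isDomain hHi.ne_zero hQ0
  rw [← hQ, (homogeneousComponent_isHomogeneous n H).totalDegree hT0] at h2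
  have h3 : Q.totalDegree = 0 := by omega
  rw [totalDegree_eq_zero_iff_eq_C] at h3
  set q := coeff 0 Q with hq
  have hq0 : q ≠ 0 := by
    intro h4
    rw [h4, C_0] at h3
    exact hQ0 h3
  have h5 : H = C q⁻¹ * homogeneousComponent n H := by
    rw [hQ, h3, mul_comm H, ← mul_assoc, ← C_mul, inv_mul_cancel₀ hq0, C_1, one_mul]
  refine ⟨n, H, ?_, hHi, hH, hd⟩
  rw [h5]
  exact (homogeneousComponent_isHomogeneous n H).C_mul _

end Pool.Agent.Lib.MP_17a322_nt.GR
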