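import Pool.Agent.Lib.MP_17a322_nt.GR.Q0
import Pool.Agent.Lib.MP_17a322_nt.GR.Q0a
import Pool.Agent.Lib.MP_17a322_nt.GR.P2b
import Pool.Agent.Lib.MP_17a322_nt.GR.Q3

/-!
The inequality for the minors of the Jacobian matrix of `r + 1` forms in `r` variables from the inequality for
gradients.
-/

namespace Pool.Agent.Lib.MP_17a322_nt.GR

open MvPolynomial Height NumberField
open Pool.Agent.Lib.MP_17a322_nt.EQ Pool.Agent.Lib.MP_17a322_nt.JAC

theorem jacMin_of_grad (h : GradInt) : JacMin ℚ := by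
  classical
  intro r d Φ ε hr hΦ hε
  by_cases hall : ∀ k : Fin (r + 1), (Matrix.of fun i j => pderiv j (Φ (k.succAbove i))).det = 0
  · refine ⟨1, 0, one_ne_zero, ⟨0, isHomogeneous_one _ _⟩, fun w _ => ?_⟩
    have h1 : mns Φ w = 0 := by
      funext k
      have h2 := congrArg (eval w) (hall k)
      rw [RingHom.map_det, map_zero] at h2
      exact h2
    rw [h1, logHeight_zero]
    have h3 := logHeight_nonneg fun a => eval w (Φ a)
    have h4 := logHeight_nonneg w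
    positivity
  push Not at hall
  obtain ⟨k₀, hk₀⟩ := hall
  obtain ⟨e, H, hHh, hHi, hH0, hHd⟩ := exists_equation hr Φ hΦ k₀ hk₀
  obtain ⟨N, H', hN, hH'⟩ := clear1 H
  have hNq : (N : ℚ) ≠ 0 := Int.cast_ne_zero.2 hN
  have hCN : IsUnit (C (N : ℚ) : MvPolynomial (Fin (r + 1)) ℚ) := IsUnit.map C (isUnit_iff_ne_zero.2 hNq)
  have hassoc : Associated H (map (Int.castRingHom ℚ) H') := by
    rw [hH']
    exact (associated_unit_mul_left H _ hCN).symm
  have hH'i : Irreducible (map (Int.castRingHom ℚ) H') := hassoc.irreducible hHi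
  have hH'h : H'.IsHomogeneous e := by
    refine IsHomogeneous.of_map (Int.castRingHom ℚ).injective_int ?_
    rw [hH']
    exact hHh.C_mul _
  set ε' : ℝ := ε / (d + 1) with hε'
  have hd1 : (0 : ℝ) < d + 1 := by positivity
  have hε'0 : 0 < ε' := div_pos hε hd1
  obtain ⟨G', C₀, ⟨e', hG'h⟩, hnd, hmain⟩ := h r e H' ε' hH'h hH'i hε'0
  have hG'0 : aeval Φ (map (Int.castRingHom ℚ) G') ≠ 0 := fun h0 =>
    hnd ((hassoc.dvd_iff_dvd_left).1 (hHd _ h0))
  obtain ⟨j₀, hj₀⟩ := exists_pderiv hHh hHi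
  have hj₀0 : aeval Φ (pderiv j₀ H) ≠ 0 := fun h0 => hj₀ (hHd _ h0)
  have ha : ∃ a, Φ a ≠ 0 := by
    by_contra hc
    push Not at hc
    apply hk₀
    apply Matrix.det_eq_zero_of_row_eq_zero (⟨0, hr⟩ : Fin r)
    intro j
    rw [Matrix.of_apply, hc, map_zero]
  obtain ⟨a₀, ha₀⟩ := ha
  obtain ⟨C₁, hC₁⟩ := logHeight_eval_le' (K := ℚ) (N := d) (p := Φ) hΦ
  refine ⟨aeval Φ (map (Int.castRingHom ℚ) G') * (aeval Φ (pderiv j₀ H) * (Φ a₀ *
    (Matrix.of fun i j => pderiv j (Φ (k₀.succAbove i))).det)), |Real.log C₀| + (ε' * |C₁|), ?_, ?_, ?_⟩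
  · exact mul_ne_zero hG'0 (mul_ne_zero hj₀0 (mul_ne_zero ha₀ hk₀))
  · exact ⟨_, ((hG'h.map _).aeval Φ hΦ).mul (((hHh.pderiv).aeval Φ hΦ).mul ((hΦ a₀).mul
      (det_homog _ fun i j => (hΦ _).pderiv)))⟩
  intro w hw
  rw [map_mul, map_mul, map_mul] at hw
  have hw1 := left_ne_zero_of_mul hw
  have hw2 := left_ne_zero_of_mul (right_ne_zero_of_mul hw)
  have hw3 := left_ne_zero_of_mul (right_ne_zero_of_mul (right_ne_zero_of_mul hw))
  have hw4 := right_ne_zero_of_mul (right_ne_zero_of_mul (right_ne_zero_of_mul hw))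
  set P : Fin (r + 1) → ℚ := fun a => eval w (Φ a) with hP
  have hPe : ∀ F : MvPolynomial (Fin (r + 1)) ℚ, eval w (aeval Φ F) = eval P F := by
    have h1 : (eval w).comp (aeval Φ : MvPolynomial (Fin (r + 1)) ℚ →ₐ[ℚ] MvPolynomial (Fin r) ℚ).toRingHom =
        eval P := by
      apply MvPolynomial.ringHom_ext
      · intro x
        simp
      · intro a
        simp [hP]
    intro F
    rw [← h1]
    rfl
  have hP0 : P ≠ 0 := fun h0 => hw3 (congrFun h0 a₀)
  obtain ⟨c, y, hc, hy, hyg⟩ := exists_prim P hP0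
  have hPy : P = fun i => c * ((y i : ℤ) : ℚ) := funext hy
  have hev : ∀ (F : MvPolynomial (Fin (r + 1)) ℤ) (b : ℕ), F.IsHomogeneous b →
      eval P (map (Int.castRingHom ℚ) F) = c ^ b * ((eval y F : ℤ) : ℚ) := by
    intro F b hF
    rw [hPy, eval_scale (hF.map _), eval_cast]
  have hy0 : y ≠ 0 := fun h0 => hP0 (by rw [hPy, h0]; funext i; simp)
  have hHy : eval y H' = 0 := by
    have h1 := hev H' e hH'h
    rw [hH', map_mul, ← hPe H, hH0, map_zero, mul_zero] at h1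
    have h2 := (mul_eq_zero.1 h1.symm).resolve_left (pow_ne_zero _ hc)
    exact_mod_cast h2
  have hGy : eval y G' ≠ 0 := fun h0 => hw1 (by rw [hPe, hev G' e' hG'h, h0, Int.cast_zero, mul_zero])
  have hm := hmain y hyg hHy hGy
  set gr : Fin (r + 1) → ℤ := fun j => eval y (pderiv j H') with hgr
  have hgrc : ∀ j, c ^ (e - 1) * ((gr j : ℤ) : ℚ) = N * eval P (pderiv j H) := by
    intro j
    have h1 := hev (pderiv j H') (e - 1) hH'h.pderiv
    rw [← pderiv_map, hH', pderiv_C_mul, map_mul, eval_C] at h1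
    exact h1.symm
  have hrel : ∀ l, ∑ k, eval P (pderiv k H) * eval w (pderiv l (Φ k)) = 0 := by
    intro l
    have h1 := congrArg (eval w) (chain Φ H l)
    rw [hH0, map_zero, map_zero, map_sum] at h1
    rw [h1]
    refine Finset.sum_congr rfl fun k _ => ?_
    rw [map_mul, hPe]
  obtain ⟨c', hc'⟩ := rel_unique (fun k l => eval w (pderiv l (Φ k))) _ hrel k₀ (by
    rw [RingHom.map_det] at hw4
    exact hw4)
  have hc'0 : c' ≠ 0 := by
    rintro rfl
    rw [hPe] at hw2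
    exact hw2 (by rw [hc' j₀, zero_mul])
  have hgr0 : gr ≠ 0 := by
    intro h0
    have h1 := hgrc j₀
    rw [h0, Pi.zero_apply, Int.cast_zero, mul_zero] at h1
    rw [hPe] at hw2
    exact (mul_ne_zero hNq hw2) h1.symm
  have hgrM : (fun j => ((gr j : ℤ) : ℚ)) = ((N : ℚ) * c' / c ^ (e - 1)) •
      fun k : Fin (r + 1) => (-1) ^ (k : ℕ) * mns Φ w k := by
    funext j
    rw [Pi.smul_apply, smul_eq_mul]
    have h1 := hgrc j
    rw [hc' j] at h1
    have h2 : (c ^ (e - 1) : ℚ) ≠ 0 := pow_ne_zero _ hc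
    rw [div_mul_eq_mul_div, eq_div_iff h2, mul_comm, h1]
    unfold mns
    ring
  have hLM : logHeight (mns Φ w) = Real.log ‖gr‖ - Real.log ((Finset.univ.gcd gr : ℤ) : ℝ) := by
    rw [← logHeight_int _ hgr0, hgrM, logHeight_smul_eq_logHeight _
      (div_ne_zero (mul_ne_zero hNq hc'0) (pow_ne_zero _ hc)), logHeight_sign]
  have hLP : logHeight P = Real.log ‖y‖ := by
    have h1 := logHeight_int y hy0
    rw [hyg, Int.cast_one, Real.log_one, sub_zero] at h1
    rw [← h1, hPy]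
    exact logHeight_smul_eq_logHeight (fun i => ((y i : ℤ) : ℚ)) hc
  have ngr : 0 < ‖gr‖ := norm_pos_iff.2 hgr0
  have ny : 0 < ‖y‖ := norm_pos_iff.2 hy0
  have ggr : (0 : ℝ) < ((Finset.univ.gcd gr : ℤ) : ℝ) := Int.cast_pos.2 (gcd_int_pos _ hgr0)
  have nye : 0 < ‖y‖ ^ ((r : ℝ) + ε') := Real.rpow_pos_of_pos ny _
  have hC₀ : 0 < C₀ := by
    by_contra hneg
    push Not at hneg
    have h1 : C₀ * ‖y‖ ^ ((r : ℝ) + ε') * ((Finset.univ.gcd gr : ℤ) : ℝ) ≤ 0 :=
      mul_nonpos_of_nonpos_of_nonneg (mul_nonpos_of_nonpos_of_nonneg hneg nye.le) ggr.le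
    linarith
  have hlog := Real.log_le_log ngr hm
  rw [Real.log_mul (mul_ne_zero hC₀.ne' nye.ne') ggr.ne', Real.log_mul hC₀.ne' nye.ne',
    Real.log_rpow ny] at hlog
  have h5 := hC₁ w
  have h6 := logHeight_nonneg w
  have h7 := le_abs_self (Real.log C₀)
  have h8 := le_abs_self C₁
  have h9 : ε' * (d + 1) = ε := by rw [hε', div_mul_cancel₀ _ hd1.ne']
  have h10 : ε' * logHeight P ≤ ε' * |C₁| + ε * logHeight w := by
    have h11 : logHeight P ≤ |C₁| + d * logHeight w := h5.trans (by linarith)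
    calc ε' * logHeight P ≤ ε' * (|C₁| + d * logHeight w) := mul_le_mul_of_nonneg_left h11 hε'0.le
      _ = ε' * |C₁| + ε' * d * logHeight w := by ring
      _ ≤ ε' * |C₁| + ε * logHeight w := by
        have h12 : ε' * d ≤ ε := by rw [← h9]; nlinarith
        have := mul_le_mul_of_nonneg_right h12 h6
        linarith
  rw [hLM]
  change _ ≤ (r : ℝ) * logHeight P + ε * logHeight w + (|Real.log C₀| + ε' * |C₁|)
  rw [hLP] at h10 ⊢
  linarith

end Pool.Agent.Lib.MP_17a322_nt.GR
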