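import Pool.Agent.Lib.MP_17a322_nt.FL.Fin
import Pool.Agent.Lib.MP_17a322_nt.GR.P4b
import Pool.Agent.Lib.MP_17a322_nt.GR.Q2
import Pool.Agent.Lib.MP_17a322_nt.GR.Q4

/-!
The inequality for the gradient of one irreducible form at its integral zeros is equivalent to the abc inequality
for forms over any number field, and to Vojta's conjecture for `D = 0` and rational varieties over any number field.
-/

universe u v

namespace Pool.Agent.Lib.MP_17a322_nt.GR

open Pool.Agent.Lib.MP_17a322_nt.EQ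
open Pool.Agent.Lib.MP_17a322_nt.JAC
open Pool.Agent.Lib.MP_17a322_nt.ABN
open Pool.Agent.Lib.MP_17a322_nt.FL
open Pool.Agent.Lib.MP_17a322_nt.RAT (VojtaGaussRat)

theorem grad_iff_jac : GradInt ↔ JacIneq ℚ :=
  ⟨fun h => jacIneq_of_jacMin ℚ (jacMin_of_grad h), fun h => grad_of_gauss ((abc_iff_gauss ℚ).2.1 h)⟩

theorem grad_iff_forms (K : Type u) [Field K] [NumberField K] : GradInt ↔ ∀ n, ABCForms K n :=
  grad_iff_jac.trans ((forms_iff_jac ℚ).symm.trans ((forms_iff_rat ℚ ℚ).trans (forms_iff_rat K ℚ).symm))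

theorem grad_iff_rat (L : Type v) [Field L] [NumberField L] : GradInt ↔ VojtaGaussRat L :=
  (grad_iff_forms ℚ).trans (forms_iff_rat ℚ L)

end Pool.Agent.Lib.MP_17a322_nt.GR
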