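import Pool.Agent.Lib.MP_17a322_nt.JAC.B0

/-!
The inequality for the minors of the Jacobian matrix of `r + 1` forms in `r` variables: definitions.
-/

universe u

namespace Pool.Agent.Lib.MP_17a322_nt.GR

open MvPolynomial Height NumberField
open Pool.Agent.Lib.MP_17a322_nt.EQ Pool.Agent.Lib.MP_17a322_nt.JAC

/-- The `r + 1` maximal minors of the Jacobian matrix of `r + 1` polynomials in `r` variables at the point `w`. -/
noncomputable def mns {R : Type*} [CommRing R] {r : ℕ} (Φ : Fin (r + 1) → MvPolynomial (Fin r) R)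
    (w : Fin r → R) : Fin (r + 1) → R := fun k =>
  (Matrix.of fun i j => eval w (pderiv j (Φ (k.succAbove i)))).det

/-- The inequality for the maximal minors of the Jacobian matrix of `r + 1` forms in `r` variables over `K`. -/
def JacMin (K : Type u) [Field K] [NumberField K] : Prop :=
  ∀ (r d : ℕ) (Φ : Fin (r + 1) → MvPolynomial (Fin r) K) (ε : ℝ), 0 < r →
    (∀ a, (Φ a).IsHomogeneous d) → 0 < ε →
    ∃ (G : MvPolynomial (Fin r) K) (C : ℝ), G ≠ 0 ∧ (∃ d', G.IsHomogeneous d') ∧
      ∀ w : Fin r → K, eval w G ≠ 0 →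
        logHeight (mns Φ w) ≤ r * logHeight (fun a => eval w (Φ a)) + ε * logHeight w + C

end Pool.Agent.Lib.MP_17a322_nt.GR
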