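import Pool.Agent.Lib.MP_17a322_nt.GR.P0

/-!
The inequality for the minors of the Jacobian matrix: reduction to the index types `Fin r` and `Fin (m + 1)`.
-/

universe u

namespace Pool.Agent.Lib.MP_17a322_nt.GR

open MvPolynomial Height NumberField
open Pool.Agent.Lib.MP_17a322_nt.EQ Pool.Agent.Lib.MP_17a322_nt.JAC

theorem jacIneq_of_fin (K : Type u) [Field K] [NumberField K]
    (h : ∀ (m r d : ℕ) (Φ : Fin (m + 1) → MvPolynomial (Fin r) K), 0 < r →
      (∀ a, (Φ a).IsHomogeneous d) → ∀ ε : ℝ, 0 < ε →
      ∃ (G : MvPolynomial (Fin r) K) (C : ℝ), G ≠ 0 ∧ (∃ d', G.IsHomogeneous d') ∧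
        ∀ w : Fin r → K, eval w G ≠ 0 →
          logHeight (fun s : Fin r → Fin (m + 1) =>
            (Matrix.of fun i j => eval w (pderiv j (Φ (s i)))).det) ≤
            r * logHeight (fun a => eval w (Φ a)) + ε * logHeight w + C) :
    JacIneq K := by
  intro τ κ _ _ _ Φ d hΦ ε hε
  by_cases h1 : Subsingleton (τ → κ)
  · refine ⟨1, 0, one_ne_zero, ⟨0, isHomogeneous_one _ _⟩, fun w _ => ?_⟩
    rw [logHeight_eq_zero_of_subsingleton]
    have h2 := logHeight_nonneg (fun a => eval w (Φ a))
    have h3 := logHeight_nonneg w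
    positivity
  have hτ : Nonempty τ := by
    by_contra hc
    rw [not_nonempty_iff] at hc
    exact h1 inferInstance
  have hκ : Nonempty κ := by
    by_contra hc
    rw [not_nonempty_iff] at hc
    exact h1 ⟨fun f => (hc.false (f (Classical.choice hτ))).elim⟩
  obtain ⟨m, hm⟩ := Nat.exists_eq_succ_of_ne_zero (Fintype.card_ne_zero (α := κ))
  let e : τ ≃ Fin (Fintype.card τ) := Fintype.equivFin τ
  let f : κ ≃ Fin (m + 1) := Fintype.equivFinOfCardEq hm
  obtain ⟨G, C, hG, ⟨d', hd'⟩, hw⟩ := h m (Fintype.card τ) d (fun b => rename e (Φ (f.symm b)))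
    Fintype.card_pos (fun b => (hΦ _).rename_isHomogeneous) ε hε
  refine ⟨rename e.symm G, C, ?_, ⟨d', hd'.rename_isHomogeneous⟩, fun w h2 => ?_⟩
  · intro h3
    exact hG (rename_injective _ e.symm.injective (by rw [h3, map_zero]))
  · rw [eval_rename] at h2
    have h3 := hw _ h2
    have h4 : ∀ P : MvPolynomial τ K, eval (w ∘ e.symm) (rename e P) = eval w P := by
      intro P
      rw [eval_rename]
      congr 2
      funext j
      simp
    have h5 : (fun s : Fin (Fintype.card τ) → Fin (m + 1) => (Matrix.of fun i j =>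
        eval (w ∘ e.symm) (pderiv j (rename e (Φ (f.symm (s i)))))).det) =
        (fun s : τ → κ => (Matrix.of fun i j => eval w (pderiv j (Φ (s i)))).det) ∘
          (Equiv.arrowCongr e f).symm := by
      funext s
      rw [Function.comp_apply, ← Matrix.det_submatrix_equiv_self e.symm]
      congr 1
      ext i j
      rw [Matrix.submatrix_apply, Matrix.of_apply, Matrix.of_apply]
      obtain ⟨j', rfl⟩ := e.surjective j
      rw [pderiv_rename e.injective, h4, Equiv.symm_apply_apply]
      congr 3
      simp [Equiv.arrowCongr]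
    have h6 : (fun a => eval (w ∘ e.symm) (rename e (Φ (f.symm a)))) =
        (fun a => eval w (Φ a)) ∘ f.symm := by
      funext a
      rw [h4, Function.comp_apply]
    rw [h5, logHeight_comp_equiv, h6, logHeight_comp_equiv, logHeight_comp_equiv] at h3
    exact h3

end Pool.Agent.Lib.MP_17a322_nt.GR
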