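import Pool.Agent.Lib.MP_17a322_nt.GR.P0
import Pool.Agent.Lib.MP_17a322_nt.EQ.Q2

/-!
Minors of `s` general vectors in the row space of a matrix: linear algebra and bounds at one place.
-/

universe u

namespace Pool.Agent.Lib.MP_17a322_nt.GR

open MvPolynomial Height NumberField
open Pool.Agent.Lib.MP_17a322_nt.EQ

section

variable {K : Type*} [Field K]

/-- The linear relation between `r + 1` vectors in `r`-space. -/
theorem rel {r : ℕ} (V : Fin (r + 1) → Fin r → K) (j : Fin r) :
    ∑ k : Fin (r + 1), (-1) ^ (k : ℕ) * V k j *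
      (Matrix.of fun (i l : Fin r) => V (k.succAbove i) l).det = 0 := by
  set N : Matrix (Fin (r + 1)) (Fin (r + 1)) K := Matrix.of fun k l =>
    (Fin.cons (V k j) (V k) : Fin (r + 1) → K) l with hN
  have h1 : N.det = 0 := by
    apply Matrix.det_zero_of_column_eq (i := 0) (j := j.succ) (Fin.succ_ne_zero j).symm
    intro k
    simp [hN]
  rw [Matrix.det_succ_column_zero] at h1
  rw [← h1]
  refine Finset.sum_congr rfl fun k _ => ?_
  have h2 : N k 0 = V k j := by simp [hN]
  have h3 : N.submatrix k.succAbove Fin.succ = Matrix.of fun (i l : Fin r) => V (k.succAbove i) l := by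
    ext i l
    simp [hN]
  rw [h2, h3]

/-- If the determinant without the vector `k` has the largest absolute value, then the vector `k` is a linear
combination of the other ones with coefficients of absolute value at most `1`. -/
theorem cramer (v : AbsoluteValue K ℝ) {r : ℕ} (V : Fin (r + 1) → Fin r → K) (k : Fin (r + 1))
    (h0 : (Matrix.of fun (i l : Fin r) => V (k.succAbove i) l).det ≠ 0)
    (h : ∀ k' : Fin (r + 1), v (Matrix.of fun (i l : Fin r) => V (k'.succAbove i) l).det ≤
      v (Matrix.of fun (i l : Fin r) => V (k.succAbove i) l).det) :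
    ∃ c : Fin r → K, (∀ l, v (c l) ≤ 1) ∧ ∀ j, V k j = ∑ l, c l * V (k.succAbove l) j := by
  set D : Fin (r + 1) → K := fun k => (Matrix.of fun (i l : Fin r) => V (k.succAbove i) l).det with hD
  have hk : D k ≠ 0 := h0
  refine ⟨fun l => -((-1) ^ (k : ℕ) * (-1) ^ ((k.succAbove l : Fin (r + 1)) : ℕ) *
    (D (k.succAbove l) / D k)), fun l => ?_, fun j => ?_⟩
  · rw [v.map_neg, map_mul, map_mul, map_pow, map_pow, v.map_neg, map_one, one_pow, one_pow, one_mul,
      one_mul, map_div₀, div_le_one (v.pos hk)]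
    exact h _
  · have h1 := rel V j
    rw [Fin.sum_univ_succAbove _ k] at h1
    have h2 : (-1 : K) ^ (k : ℕ) * (-1) ^ (k : ℕ) = 1 := by
      rw [← mul_pow]; simp
    have h3 : V k j * D k = -((-1) ^ (k : ℕ) * ∑ l, (-1) ^ ((k.succAbove l : Fin (r + 1)) : ℕ) *
        V (k.succAbove l) j * D (k.succAbove l)) := by
      have h4 : (-1) ^ (k : ℕ) * V k j * D k = - ∑ l, (-1) ^ ((k.succAbove l : Fin (r + 1)) : ℕ) *
        V (k.succAbove l) j * D (k.succAbove l) := eq_neg_of_add_eq_zero_left h1
      calc V k j * D k = ((-1) ^ (k : ℕ) * (-1) ^ (k : ℕ)) * (V k j * D k) := by rw [h2, one_mul]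
        _ = (-1) ^ (k : ℕ) * ((-1) ^ (k : ℕ) * V k j * D k) := by ring
        _ = _ := by rw [h4]; ring
    have h5 : V k j = -((-1) ^ (k : ℕ) * ∑ l, (-1) ^ ((k.succAbove l : Fin (r + 1)) : ℕ) *
        V (k.succAbove l) j * D (k.succAbove l)) / D k := by
      rw [← h3, mul_div_cancel_right₀ _ hk]
    rw [h5, Finset.mul_sum, ← Finset.sum_neg_distrib, Finset.sum_div]
    refine Finset.sum_congr rfl fun l _ => ?_
    ring

end

section

variable {K : Type*} [Field K]

/-- The vectors in `r`-space given by the points `t i` of the moment curve and the matrix `A`. -/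
def vv {m r s : ℕ} (t : Fin s → K) (A : Fin (m + 1) → Fin r → K) (i : Fin s) (j : Fin r) : K :=
  ∑ a : Fin (m + 1), t i ^ (a : ℕ) * A a j

/-- The determinants of `r` of these vectors. -/
noncomputable def pj {m r s : ℕ} (t : Fin s → K) (A : Fin (m + 1) → Fin r → K) (J : Fin r → Fin s) : K :=
  (Matrix.of fun i j => vv t A (J i) j).det

/-- The maximal minors of the matrix `A`. -/
noncomputable def om {m r : ℕ} (A : Fin (m + 1) → Fin r → K) (S : Fin r → Fin (m + 1)) : K :=
  (Matrix.of fun i j => A (S i) j).det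

/-- The determinants of the vectors are combinations of the minors. -/
theorem pj_eq {m r s : ℕ} (t : Fin s → K) (A : Fin (m + 1) → Fin r → K) (J : Fin r → Fin s) :
    pj t A J = ∑ S : Fin r → Fin (m + 1), (∏ i, t (J i) ^ (S i : ℕ)) * om A S := by
  classical
  have h1 : pj t A J = Matrix.detRowAlternating fun i => ∑ a : Fin (m + 1), t (J i) ^ (a : ℕ) • A a := by
    change Matrix.detRowAlternating (Matrix.of fun i j => vv t A (J i) j) = _
    refine congrArg _ ?_
    funext i j
    simp [vv]
  rw [h1]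
  have h2 := (Matrix.detRowAlternating (R := K) (n := Fin r)).toMultilinearMap.map_sum
    (fun i (a : Fin (m + 1)) => t (J i) ^ (a : ℕ) • A a)
  have h3 : (Matrix.detRowAlternating (R := K) (n := Fin r)) (fun i => ∑ a : Fin (m + 1), t (J i) ^ (a : ℕ) • A a) =
      (Matrix.detRowAlternating (R := K) (n := Fin r)).toMultilinearMap
        (fun i => ∑ a : Fin (m + 1), t (J i) ^ (a : ℕ) • A a) := rfl
  rw [h3, h2]
  refine Finset.sum_congr rfl fun S _ => ?_
  rw [MultilinearMap.map_smul_univ, smul_eq_mul]
  rfl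

end

end Pool.Agent.Lib.MP_17a322_nt.GR
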