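import Pool.Agent.Lib.MP_17a322_nt.GR.P2b

/-!
Minors of `s` general vectors in the row space of a matrix: the counting argument.
-/

universe u

namespace Pool.Agent.Lib.MP_17a322_nt.GR

open MvPolynomial Height NumberField
open Pool.Agent.Lib.MP_17a322_nt.EQ

/-- The counting argument in the abstract. `ℓ J` is a function of the `r`-tuples `J`; every `(r + 1)`-tuple `I`
is assigned to one of its `r`-tuples (omit the entry `k I`), the omitted entries for `J` lie in `T J`. -/
theorem count {r s m : ℕ} (ℓ : (Fin r ↪ Fin s) → ℝ) (k : (Fin (r + 1) ↪ Fin s) → Fin (r + 1))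
    (T : (Fin r ↪ Fin s) → Finset (Fin s)) {c1 c2 : ℝ} (hc1 : 0 ≤ c1) (hc2 : 0 ≤ c2)
    (h2 : ∀ J, -c2 ≤ ℓ J) (h1 : ∀ J, m < (T J).card → ℓ J ≤ c1)
    (hT : ∀ I : Fin (r + 1) ↪ Fin s, I (k I) ∈ T ((k I).succAboveEmb.trans I)) :
    ∑ I : Fin (r + 1) ↪ Fin s, ℓ ((k I).succAboveEmb.trans I) ≤
      ((r + 1) * m : ℕ) * ∑ J, ℓ J + ((((r + 1) * m : ℕ) * (Fintype.card (Fin r ↪ Fin s)) : ℝ) * c2 +
        Fintype.card (Fin (r + 1) ↪ Fin s) * c1) := by
  classical
  set g : (Fin r ↪ Fin s) → ℝ := fun J => if (T J).card ≤ m then ℓ J + c2 else 0 with hg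
  have hg0 : ∀ J, 0 ≤ g J := fun J => by
    simp only [hg]
    split_ifs
    · have := h2 J; linarith
    · exact le_refl 0
  have h3 : ∀ I : Fin (r + 1) ↪ Fin s, ℓ ((k I).succAboveEmb.trans I) ≤
      g ((k I).succAboveEmb.trans I) + c1 := fun I => by
    simp only [hg]
    split_ifs with h
    · linarith
    · have := h1 _ (not_le.1 h); linarith
  have hcard : ∀ J : Fin r ↪ Fin s, (Finset.univ.filter fun I : Fin (r + 1) ↪ Fin s =>
      (k I).succAboveEmb.trans I = J).card ≤ (r + 1) * (T J).card := fun J => by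
    have h4 : (Finset.univ.filter fun I : Fin (r + 1) ↪ Fin s => (k I).succAboveEmb.trans I = J).card ≤
        ((Finset.univ : Finset (Fin (r + 1))) ×ˢ T J).card := by
      apply Finset.card_le_card_of_injOn fun I => (k I, I (k I))
      · intro I hI
        simp only [Finset.coe_filter, Finset.mem_univ, true_and, Set.mem_ofPred_eq] at hI
        simp only [Finset.coe_product, Finset.coe_univ, Set.mem_prod, Set.mem_univ, true_and,
          Finset.mem_coe]
        have := hT I
        rwa [hI] at this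
      · intro I hI I' hI' h
        simp only [Finset.coe_filter, Finset.mem_univ, true_and, Set.mem_ofPred_eq] at hI hI'
        simp only [Prod.mk.injEq] at h
        obtain ⟨h5, h6⟩ := h
        ext x
        rcases Fin.eq_self_or_eq_succAbove (k I) x with rfl | ⟨l, rfl⟩
        · rw [h6, h5]
        · have h7 := congrArg (fun E : Fin r ↪ Fin s => E l) (hI.trans hI'.symm)
          simp only [Function.Embedding.trans_apply, Fin.coe_succAboveEmb] at h7
          rw [h7, h5]
    rwa [Finset.card_product, Finset.card_univ, Fintype.card_fin] at h4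
  calc ∑ I : Fin (r + 1) ↪ Fin s, ℓ ((k I).succAboveEmb.trans I)
      ≤ ∑ I : Fin (r + 1) ↪ Fin s, (g ((k I).succAboveEmb.trans I) + c1) := Finset.sum_le_sum fun I _ => h3 I
    _ = ∑ I : Fin (r + 1) ↪ Fin s, g ((k I).succAboveEmb.trans I) +
        Fintype.card (Fin (r + 1) ↪ Fin s) * c1 := by
        rw [Finset.sum_add_distrib, Finset.sum_const, Finset.card_univ, nsmul_eq_mul]
    _ = ∑ J : Fin r ↪ Fin s, ((Finset.univ.filter fun I : Fin (r + 1) ↪ Fin s =>
          (k I).succAboveEmb.trans I = J).card : ℝ) * g J +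
        Fintype.card (Fin (r + 1) ↪ Fin s) * c1 := by
        congr 1
        rw [← Finset.sum_fiberwise_of_maps_to' (t := Finset.univ) (g := fun I : Fin (r + 1) ↪ Fin s =>
          (k I).succAboveEmb.trans I) (fun _ _ => Finset.mem_univ _) g]
        refine Finset.sum_congr rfl fun J _ => ?_
        rw [Finset.sum_const, nsmul_eq_mul]
    _ ≤ ∑ J : Fin r ↪ Fin s, (((r + 1) * m : ℕ) : ℝ) * (ℓ J + c2) +
        Fintype.card (Fin (r + 1) ↪ Fin s) * c1 := by
        refine add_le_add_left (Finset.sum_le_sum fun J _ => ?_) _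
        by_cases h : (T J).card ≤ m
        · have h5 : g J = ℓ J + c2 := by simp only [hg, if_pos h]
          have h6 : 0 ≤ ℓ J + c2 := by rw [← h5]; exact hg0 J
          rw [h5]
          refine mul_le_mul_of_nonneg_right ?_ h6
          exact_mod_cast (hcard J).trans (Nat.mul_le_mul_left _ h)
        · have h5 : g J = 0 := by simp only [hg, if_neg h]
          have h6 := h2 J
          rw [h5, mul_zero]
          exact mul_nonneg (Nat.cast_nonneg _) (by linarith)
    _ = _ := by
        rw [← Finset.mul_sum, Finset.sum_add_distrib, Finset.sum_const, Finset.card_univ, nsmul_eq_mul]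
        ring

section

variable {K : Type u} [Field K] [NumberField K]

/-- The local inequality. -/
theorem local_ineq {m r s : ℕ} (t : Fin s → K) (ht : Function.Injective t) :
    ∃ c : Pl K → ℝ, (∀ v, 0 ≤ c v) ∧ FS c ∧ ∀ (A : Fin (m + 1) → Fin r → K), (∃ S, om A S ≠ 0) →
      (∀ J : Fin r ↪ Fin s, pj t A J ≠ 0) → ∀ v,
      ∑ I : Fin (r + 1) ↪ Fin s, (Real.log (⨆ S, av v (om A S)) -
          Real.log (⨆ k : Fin (r + 1), av v (pj t A (I ∘ k.succAbove)))) ≤
        ((r + 1) * m : ℕ) * ∑ J : Fin r ↪ Fin s, (Real.log (⨆ S, av v (om A S)) -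
          Real.log (av v (pj t A J))) + c v := by
  classical
  obtain ⟨c1, h10, h11, h12⟩ := upper (m := m) (r := r) t ht
  obtain ⟨c2, h20, h21, h22⟩ := lower (m := m) (r := r) t
  refine ⟨fun v => (((r + 1) * m : ℕ) * (Fintype.card (Fin r ↪ Fin s)) : ℝ) * c2 v +
        Fintype.card (Fin (r + 1) ↪ Fin s) * c1 v, fun v => ?_, ?_, fun A hA hJ v => ?_⟩
  · have := h10 v
    have := h20 v
    positivity
  · exact hs_fs_add (hs_fs_mul _ h21) (hs_fs_mul _ h11)
  have hOm : 0 < ⨆ S, av v (om A S) := by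
    obtain ⟨S, hS⟩ := hA
    exact ((av v).pos hS).trans_le (Finite.le_ciSup (fun S => av v (om A S)) S)
  have hex : ∀ I : Fin (r + 1) ↪ Fin s, ∃ k : Fin (r + 1), ∀ k' : Fin (r + 1),
      av v (pj t A (I ∘ k'.succAbove)) ≤
      av v (pj t A (I ∘ k.succAbove)) := fun I => by
    obtain ⟨k, hk⟩ := exists_eq_ciSup_of_finite (f := fun k : Fin (r + 1) => av v (pj t A (I ∘ k.succAbove)))
    refine ⟨k, fun k' => ?_⟩
    rw [hk]
    exact Finite.le_ciSup (fun k : Fin (r + 1) => av v (pj t A (I ∘ k.succAbove))) k'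
  choose k hk using hex
  set ℓ : (Fin r ↪ Fin s) → ℝ := fun J => Real.log (⨆ S, av v (om A S)) - Real.log (av v (pj t A J)) with hℓ
  have hco : ∀ (I : Fin (r + 1) ↪ Fin s) (k : Fin (r + 1)),
      ((k.succAboveEmb.trans I : Fin r ↪ Fin s) : Fin r → Fin s) = I ∘ k.succAbove := fun I k => rfl
  have h5 : ∀ I : Fin (r + 1) ↪ Fin s, Real.log (⨆ S, av v (om A S)) -
      Real.log (⨆ k : Fin (r + 1), av v (pj t A (I ∘ k.succAbove))) = ℓ ((k I).succAboveEmb.trans I) := fun I => by
    simp only [hℓ]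
    rw [hco]
    congr 2
    apply le_antisymm
    · exact ciSup_le (hk I)
    · exact Finite.le_ciSup (fun k : Fin (r + 1) => av v (pj t A (I ∘ k.succAbove))) (k I)
  rw [Finset.sum_congr rfl fun I _ => h5 I]
  refine count (m := m) ℓ k (fun J => Finset.univ.filter fun i : Fin s => ∃ c : Fin r → K,
    (∀ l, av v (c l) ≤ 1) ∧ ∀ j, vv t A i j = ∑ l, c l * vv t A (J l) j) (h10 v) (h20 v) ?_ ?_ ?_
  · intro J
    have h6 := Real.log_le_log ((av v).pos (hJ J)) (h22 v A J)
    rw [Real.log_mul (Real.exp_pos _).ne' hOm.ne', Real.log_exp] at h6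
    simp only [hℓ]
    linarith
  · intro J hcard
    obtain ⟨T', hT1, hT2⟩ := Finset.exists_subset_card_eq (Nat.succ_le_of_lt hcard)
    have hb : ∀ x : Fin (m + 1), ∃ c : Fin r → K, (∀ l, av v (c l) ≤ 1) ∧
        ∀ j, vv t A ((T'.orderEmbOfFin hT2) x) j = ∑ l, c l * vv t A (J l) j := fun x => by
      have := hT1 (Finset.orderEmbOfFin_mem T' hT2 x)
      simpa using this
    have h6 := h12 v A J (T'.orderEmbOfFin hT2).toEmbedding hb
    have h7 : (⨆ S, av v (om A S)) ≤ Real.exp (c1 v) * av v (pj t A J) := ciSup_le h6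
    have h8 := Real.log_le_log hOm h7
    rw [Real.log_mul (Real.exp_pos _).ne' ((av v).pos (hJ J)).ne', Real.log_exp] at h8
    simp only [hℓ]
    linarith
  · intro I
    rw [Finset.mem_filter]
    refine ⟨Finset.mem_univ _, ?_⟩
    exact cramer (av v) (fun x j => vv t A (I x) j) (k I) (hJ ((k I).succAboveEmb.trans I)) (hk I)

end

end Pool.Agent.Lib.MP_17a322_nt.GR
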