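import Pool.Agent.Lib.MP_17a322_nt.GR.Q0a

/-!
The equation of a parametrised hypersurface: algebraic independence, and prime ideals of height one.
-/

namespace Pool.Agent.Lib.MP_17a322_nt.GR

open MvPolynomial

/-- A polynomial whose partial derivatives vanish is constant. -/
theorem const_of_pderiv {K : Type*} [Field K] [CharZero K] {σ : Type*} {F : MvPolynomial σ K}
    (h : ∀ i, pderiv i F = 0) : F = C (coeff 0 F) := by
  classical
  ext m
  rw [coeff_C]
  split_ifs with hm
  · rw [hm]
  · obtain ⟨i, hi⟩ : ∃ i, m i ≠ 0 := by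
      by_contra hc
      push Not at hc
      exact hm (Finsupp.ext fun i => (hc i).symm)
    have h1 := congrArg (coeff (m - Finsupp.single i 1)) (h i)
    rw [coeff_pderiv, coeff_zero] at h1
    have h2 : m - Finsupp.single i 1 + Finsupp.single i 1 = m :=
      tsub_add_cancel_of_le (Finsupp.single_le_iff.2 (Nat.one_le_iff_ne_zero.2 hi))
    rw [h2] at h1
    refine (mul_eq_zero.1 h1).resolve_right ?_
    exact Nat.cast_add_one_ne_zero ((m - Finsupp.single i 1 : σ →₀ ℕ) i)

/-- The degree of a partial derivative. -/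
theorem totalDegree_pderiv_le {K : Type*} [Field K] {σ : Type*} {F : MvPolynomial σ K} {n : ℕ}
    (h : F.totalDegree ≤ n + 1) (i : σ) : (pderiv i F).totalDegree ≤ n := by
  classical
  unfold totalDegree
  refine Finset.sup_le fun m hm => ?_
  rw [mem_support_iff, coeff_pderiv] at hm
  have h1 := le_totalDegree (mem_support_iff.2 (left_ne_zero_of_mul hm))
  have h2 : ((m + Finsupp.single i 1).sum fun _ e => e) = (m.sum fun _ e => e) + 1 := by
    rw [Finsupp.sum_add_index' (fun _ => rfl) (fun _ _ _ => rfl), Finsupp.sum_single_index rfl]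
  rw [h2] at h1
  omega

/-- Polynomials in `r` variables with a nonzero Jacobian determinant are algebraically independent. -/
theorem indep {K : Type*} [Field K] [CharZero K] {r : ℕ} (Ψ : Fin r → MvPolynomial (Fin r) K)
    (hM : (Matrix.of fun i j => pderiv j (Ψ i)).det ≠ 0) (F : MvPolynomial (Fin r) K) (hF : aeval Ψ F = 0) :
    F = 0 := by
  classical
  have key : ∀ (n : ℕ) (F : MvPolynomial (Fin r) K), F.totalDegree ≤ n → aeval Ψ F = 0 → F = 0 := by
    intro n
    induction n with
    | zero =>
      intro F h1 h2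
      rw [totalDegree_eq_zero_iff_eq_C.1 (Nat.le_zero.1 h1)] at h2 ⊢
      rw [aeval_C, algebraMap_eq, C_eq_zero] at h2
      rw [h2, C_0]
    | succ n ih =>
      intro F h1 h2
      have h3 : (fun i => aeval Ψ (pderiv i F)) = 0 := by
        apply Matrix.eq_zero_of_vecMul_eq_zero hM
        funext j
        have h4 := chain Ψ F j
        rw [h2, map_zero] at h4
        exact h4.symm
      have h5 : ∀ i, pderiv i F = 0 := fun i => ih _ (totalDegree_pderiv_le h1 i) (congrFun h3 i)
      have h6 := const_of_pderiv h5
      rw [h6] at h2 ⊢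
      rw [aeval_C, algebraMap_eq, C_eq_zero] at h2
      rw [h2, C_0]
  exact key _ F le_rfl hF

/-- More polynomials than variables are algebraically dependent. -/
theorem dep {K : Type*} [Field K] {r : ℕ} (Φ : Fin (r + 1) → MvPolynomial (Fin r) K) :
    ∃ F : MvPolynomial (Fin (r + 1)) K, F ≠ 0 ∧ aeval Φ F = 0 := by
  by_contra hc
  push Not at hc
  have h1 : AlgebraicIndependent K Φ := by
    rw [algebraicIndependent_iff]
    intro p hp
    by_contra h0
    exact hc p h0 hp
  have h2 := h1.lift_cardinalMk_le_trdeg
  rw [MvPolynomial.trdeg_of_isDomain] at h2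
  simp at h2

/-- A prime ideal of polynomials in one variable over a factorial domain which contains no constant: it is
principal. -/
theorem principal {R : Type*} [CommRing R] [IsDomain R] [UniqueFactorizationMonoid R]
    [UniqueFactorizationMonoid (Polynomial R)] (J : Ideal (Polynomial R)) [hJ : J.IsPrime]
    (h0 : ∀ a : R, Polynomial.C a ∈ J → a = 0) (F : Polynomial R) (hF : F ∈ J) (hF0 : F ≠ 0) :
    ∃ H : Polynomial R, Irreducible H ∧ H ∈ J ∧ ∀ G ∈ J, H ∣ G := by
  classical
  set S : Set (Polynomial R) := {p | p ∈ J ∧ p ≠ 0} with hS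
  have hSne : (Polynomial.natDegree '' S).Nonempty := ⟨_, F, ⟨hF, hF0⟩, rfl⟩
  obtain ⟨n, ⟨p₀, hp₀, hn⟩, hmin⟩ := WellFounded.has_min Nat.lt_wfRel.wf _ hSne
  have hmin' : ∀ p ∈ J, p ≠ 0 → n ≤ p.natDegree := fun p hp hp0 =>
    not_lt.1 (hmin _ ⟨p, ⟨hp, hp0⟩, rfl⟩)
  set T : Set (Polynomial R) := {p | p ∈ J ∧ p ≠ 0 ∧ p.natDegree = n} with hT
  have hTne : T.Nonempty := ⟨p₀, hp₀.1, hp₀.2, hn⟩
  obtain ⟨H, ⟨hHJ, hH0, hHn⟩, hHmin⟩ := WellFounded.has_min
    (wellFounded_dvdNotUnit (α := Polynomial R)) T hTne
  have hHi : Irreducible H := by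
    constructor
    · intro hu
      exact hJ.ne_top (J.eq_top_of_isUnit_mem hHJ hu)
    · intro a b hab
      have haux : ∀ a b : Polynomial R, H = a * b → a ∈ J → IsUnit b := by
        intro a b hab ha
        by_contra hb
        have ha0 : a ≠ 0 := by rintro rfl; exact hH0 (by rw [hab, zero_mul])
        have hb0 : b ≠ 0 := by rintro rfl; exact hH0 (by rw [hab, mul_zero])
        have h1 : a.natDegree ≤ n := by
          rw [← hHn, hab, Polynomial.natDegree_mul ha0 hb0]
          exact Nat.le_add_right _ _
        exact hHmin a ⟨ha, ha0, le_antisymm h1 (hmin' a ha ha0)⟩ (⟨ha0, b, hb, hab⟩ : DvdNotUnit a H)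
      rcases hJ.mem_or_mem (by rw [← hab]; exact hHJ : a * b ∈ J) with h | h
      · exact Or.inr (haux a b hab h)
      · exact Or.inl (haux b a (by rw [hab, mul_comm]) h)
  have hn1 : 1 ≤ n := by
    by_contra hc
    have h1 : H.natDegree = 0 := by omega
    rw [Polynomial.eq_C_of_natDegree_eq_zero h1] at hHJ hH0
    exact hH0 (by rw [h0 _ hHJ, Polynomial.C_0])
  have hdiv : ∀ (m : ℕ) (G : Polynomial R), G.natDegree ≤ m → G ∈ J →
      ∃ N : ℕ, H ∣ Polynomial.C (H.leadingCoeff) ^ N * G := by
    intro m
    induction m with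
    | zero =>
      intro G hG hGJ
      refine ⟨0, ?_⟩
      have : G = 0 := by
        by_contra h1
        have := hmin' G hGJ h1
        omega
      rw [this, mul_zero]
      exact dvd_zero _
    | succ m ih =>
      intro G hG hGJ
      by_cases h1 : G = 0
      · exact ⟨0, by rw [h1, mul_zero]; exact dvd_zero _⟩
      have h2 := hmin' G hGJ h1
      set G' := Polynomial.C H.leadingCoeff * G -
        Polynomial.C G.leadingCoeff * Polynomial.X ^ (G.natDegree - n) * H with hG'
      have h3 : G' ∈ J := J.sub_mem (J.mul_mem_left _ hGJ) (J.mul_mem_left _ hHJ)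
      have h4 : G'.natDegree ≤ m := by
        have hlH : H.leadingCoeff ≠ 0 := Polynomial.leadingCoeff_ne_zero.2 hH0
        have hlG : G.leadingCoeff ≠ 0 := Polynomial.leadingCoeff_ne_zero.2 h1
        have hA : (Polynomial.C H.leadingCoeff * G).natDegree = G.natDegree := by
          rw [Polynomial.natDegree_C_mul hlH]
        have hB : (Polynomial.C G.leadingCoeff * Polynomial.X ^ (G.natDegree - n) * H).natDegree =
            G.natDegree := by
          rw [mul_assoc, Polynomial.natDegree_C_mul hlG, mul_comm, Polynomial.natDegree_mul_X_pow _ hH0, hHn]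
          omega
        have hle : G'.natDegree ≤ G.natDegree := (Polynomial.natDegree_sub_le _ _).trans
          (by rw [hA, hB, max_self])
        have hco : G'.coeff G.natDegree = 0 := by
          have e1 : (Polynomial.C H.leadingCoeff * G).coeff G.natDegree = H.leadingCoeff * G.leadingCoeff := by
            rw [Polynomial.coeff_C_mul]
            rfl
          have e2 : (Polynomial.C G.leadingCoeff * Polynomial.X ^ (G.natDegree - n) * H).coeff G.natDegree =
              G.leadingCoeff * H.leadingCoeff := by
            rw [mul_assoc, Polynomial.coeff_C_mul, mul_comm (Polynomial.X ^ _) H,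
              Polynomial.coeff_mul_X_pow', if_pos (Nat.sub_le _ _)]
            rw [Nat.sub_sub_self h2, ← hHn]
            rfl
          rw [hG', Polynomial.coeff_sub, e1, e2]
          ring
        have hlt : G'.natDegree < G.natDegree := by
          rcases Nat.lt_or_eq_of_le hle with h5 | h5
          · exact h5
          · exfalso
            have h6 : G'.leadingCoeff = 0 := by
              rw [Polynomial.leadingCoeff, h5, hco]
            have h7 := Polynomial.leadingCoeff_eq_zero.1 h6
            rw [h7, Polynomial.natDegree_zero] at h5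
            omega
        omega
      obtain ⟨N, hN⟩ := ih G' h4 h3
      refine ⟨N + 1, ?_⟩
      have h5 : Polynomial.C H.leadingCoeff ^ (N + 1) * G = Polynomial.C H.leadingCoeff ^ N * G' +
          H * (Polynomial.C H.leadingCoeff ^ N *
            (Polynomial.C G.leadingCoeff * Polynomial.X ^ (G.natDegree - n))) := by
        rw [hG']
        ring
      rw [h5]
      exact dvd_add hN (dvd_mul_right _ _)
  refine ⟨H, hHi, hHJ, fun G hG => ?_⟩
  obtain ⟨N, hN⟩ := hdiv G.natDegree G le_rfl hG
  have hprime : Prime H := UniqueFactorizationMonoid.irreducible_iff_prime.1 hHi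
  refine (hprime.dvd_or_dvd hN).resolve_left fun h1 => ?_
  have h2 := hprime.dvd_of_dvd_pow h1
  have h3 := Polynomial.natDegree_le_of_dvd h2 (by
    rw [Ne, Polynomial.C_eq_zero]
    exact Polynomial.leadingCoeff_ne_zero.2 hH0)
  rw [Polynomial.natDegree_C, hHn] at h3
  omega

end Pool.Agent.Lib.MP_17a322_nt.GR
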